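import Mathlib

set_option autoImplicit false

/-! # Project MW, affine forms: pigeonhole, signs, reduction to translates -/

namespace Pool.Agent.Helper82.MW

open Finset

/-- pairwise non-proportional forms `g y + t` -/
def NP (P : Finset (ℕ × ℤ)) : Prop :=
  ∀ z ∈ P, ∀ w ∈ P, (z.1 : ℤ) * w.2 = (w.1 : ℤ) * z.2 → z = w

/-- forms of height at most `H` -/
def Ht (H : ℕ) (P : Finset (ℕ × ℤ)) : Prop :=
  ∀ z ∈ P, 1 ≤ z.1 ∧ z.1 ≤ H ∧ |z.2| ≤ (H : ℤ)

theorem NP.mono {P Q : Finset (ℕ × ℤ)} (h : NP P) (hQ : Q ⊆ P) : NP Q :=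
  fun z hz w hw e => h z (hQ hz) w (hQ hw) e

theorem Ht.mono {H : ℕ} {P Q : Finset (ℕ × ℤ)} (h : Ht H P) (hQ : Q ⊆ P) : Ht H Q :=
  fun z hz => h z (hQ hz)

/-- one family of forms for many `b` -/
theorem pigA (m H : ℕ) (A B : Finset ℤ) (hBn : B.Nonempty)
    (hB : ∀ b ∈ B, ∃ P : Finset (ℕ × ℤ), m ≤ P.card ∧ Ht H P ∧ NP P ∧
      ∀ z ∈ P, (z.1 : ℤ) * b + z.2 ∈ A) :
    ∃ P : Finset (ℕ × ℤ), P.card = m ∧ Ht H P ∧ NP P ∧ ∃ B' ⊆ B, B'.Nonempty ∧
      B.card ≤ ((2 * H + 1) ^ 2) ^ m * B'.card ∧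
      ∀ b ∈ B', ∀ z ∈ P, (z.1 : ℤ) * b + z.2 ∈ A := by
  classical
  obtain ⟨Bx, hBx⟩ : ∃ Bx : Finset (ℕ × ℤ),
      Bx = Finset.Icc 1 H ×ˢ Finset.Icc (-(H : ℤ)) (H : ℤ) := ⟨_, rfl⟩
  have hBxc : Bx.card ≤ (2 * H + 1) ^ 2 := by
    rw [hBx, Finset.card_product, Nat.card_Icc, Int.card_Icc]
    have h1 : ((H : ℤ) + 1 - -(H : ℤ)).toNat = 2 * H + 1 := by omega
    rw [h1, sq]
    refine Nat.mul_le_mul_right _ ?_
    omega
  have h1 : ∀ b ∈ B, ∃ P : Finset (ℕ × ℤ), P ∈ Bx.powersetCard m ∧ Ht H P ∧ NP P ∧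
      ∀ z ∈ P, (z.1 : ℤ) * b + z.2 ∈ A := by
    intro b hb
    obtain ⟨P, hPm, hPH, hPN, hPA⟩ := hB b hb
    obtain ⟨S, hS, hSm⟩ := Finset.exists_subset_card_eq hPm
    refine ⟨S, ?_, hPH.mono hS, hPN.mono hS, fun z hz => hPA z (hS hz)⟩
    rw [Finset.mem_powersetCard]
    refine ⟨fun z hz => ?_, hSm⟩
    obtain ⟨h2, h3, h4⟩ := hPH z (hS hz)
    rw [hBx, Finset.mem_product, Finset.mem_Icc, Finset.mem_Icc]
    exact ⟨⟨h2, h3⟩, abs_le.1 h4⟩
  choose! F hF hFH hFN hFA using h1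
  have hPne : (Bx.powersetCard m).Nonempty := by
    obtain ⟨b, hb⟩ := hBn
    exact ⟨F b, hF b hb⟩
  obtain ⟨T, hT, hmax⟩ := Finset.exists_max_image (Bx.powersetCard m)
    (fun T => (B.filter fun b => F b = T).card) hPne
  have hcard : B.card ≤ ((2 * H + 1) ^ 2) ^ m * (B.filter fun b => F b = T).card := by
    have h1 : B.card = ∑ T' ∈ Bx.powersetCard m, (B.filter fun b => F b = T').card :=
      Finset.card_eq_sum_card_fiberwise fun b hb => hF b hb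
    rw [h1]
    calc ∑ T' ∈ Bx.powersetCard m, (B.filter fun b => F b = T').card
        ≤ ∑ T' ∈ Bx.powersetCard m, (B.filter fun b => F b = T).card :=
          Finset.sum_le_sum fun T' hT' => hmax T' hT'
      _ = (Bx.powersetCard m).card * (B.filter fun b => F b = T).card := by
          rw [Finset.sum_const, smul_eq_mul]
      _ ≤ ((2 * H + 1) ^ 2) ^ m * (B.filter fun b => F b = T).card := by
          refine Nat.mul_le_mul_right _ ?_
          rw [Finset.card_powersetCard]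
          exact (Nat.choose_le_pow _ _).trans (Nat.pow_le_pow_left hBxc m)
  rw [Finset.mem_powersetCard] at hT
  have hne : (B.filter (fun b => F b = T)).Nonempty := by
    rw [← Finset.card_pos]
    have h2 : 0 < B.card := Finset.card_pos.2 hBn
    by_contra hc
    have h3 : (B.filter fun b => F b = T).card = 0 := by omega
    rw [h3] at hcard
    omega
  obtain ⟨b0, hb0⟩ := hne
  obtain ⟨hb01, hb02⟩ := Finset.mem_filter.1 hb0
  refine ⟨T, hT.2, hb02 ▸ hFH b0 hb01, hb02 ▸ hFN b0 hb01, B.filter (fun b => F b = T),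
    Finset.filter_subset _ _, ⟨b0, hb0⟩, hcard, ?_⟩
  intro b hb z hz
  obtain ⟨hb1, hb2⟩ := Finset.mem_filter.1 hb
  exact hFA b hb1 z (hb2 ▸ hz)

/-- signs -/
theorem signsA (H : ℕ) (A B : Finset ℤ) (P : Finset (ℕ × ℤ)) (hH : Ht H P) (hN : NP P)
    (hBA : ∀ b ∈ B, ∀ z ∈ P, (z.1 : ℤ) * b + z.2 ∈ A) (hbig : 2 * (2 * H + 1) ≤ B.card) :
    ∃ σ : ℤ, (σ = 1 ∨ σ = -1) ∧ ∃ P' : Finset (ℕ × ℤ), P'.card = P.card ∧ Ht H P' ∧ NP P' ∧
      ∃ Y : Finset ℕ, Y.Nonempty ∧ (∀ y ∈ Y, H < y) ∧ B.card ≤ 4 * Y.card ∧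
        ∀ y ∈ Y, ∀ z ∈ P', σ * ((z.1 : ℤ) * ((y : ℕ) : ℤ) + z.2) ∈ A := by
  classical
  obtain ⟨R, hR⟩ : ∃ R : Finset ℤ, R = B.filter (fun b => (H : ℤ) < b) := ⟨_, rfl⟩
  obtain ⟨Q, hQ⟩ : ∃ Q : Finset ℤ, Q = B.filter (fun b => b < -(H : ℤ)) := ⟨_, rfl⟩
  have hsum : B.card ≤ R.card + Q.card + (2 * H + 1) := by
    have h1 : B ⊆ (R ∪ Q) ∪ Finset.Icc (-(H : ℤ)) (H : ℤ) := by
      intro b hb
      rw [Finset.mem_union, Finset.mem_union, hR, hQ, Finset.mem_filter, Finset.mem_filter,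
        Finset.mem_Icc]
      by_cases h2 : (H : ℤ) < b
      · exact Or.inl (Or.inl ⟨hb, h2⟩)
      · by_cases h3 : b < -(H : ℤ)
        · exact Or.inl (Or.inr ⟨hb, h3⟩)
        · exact Or.inr ⟨not_lt.1 h3, not_lt.1 h2⟩
    have h2 := (Finset.card_le_card h1).trans (Finset.card_union_le _ _)
    have h3 := Finset.card_union_le R Q
    have h4 : (Finset.Icc (-(H : ℤ)) (H : ℤ)).card = 2 * H + 1 := by
      rw [Int.card_Icc]
      omega
    omega
  have hpos : 0 < B.card := by omega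
  rcases le_total Q.card R.card with hle | hle
  · refine ⟨1, Or.inl rfl, P, rfl, hH, hN, R.image (fun b => b.toNat), ?_, ?_, ?_, ?_⟩
    · refine Finset.Nonempty.image ?_ _
      rw [← Finset.card_pos]
      omega
    · intro y hy
      obtain ⟨b, hb, rfl⟩ := Finset.mem_image.1 hy
      rw [hR, Finset.mem_filter] at hb
      omega
    · rw [Finset.card_image_of_injOn]
      · omega
      · intro b hb b' hb' hbb
        rw [Finset.mem_coe, hR, Finset.mem_filter] at hb hb'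
        simp only at hbb
        omega
    · intro y hy z hz
      obtain ⟨b, hb, rfl⟩ := Finset.mem_image.1 hy
      rw [hR, Finset.mem_filter] at hb
      have h5 : ((b.toNat : ℕ) : ℤ) = b := Int.toNat_of_nonneg (by omega)
      rw [h5, one_mul]
      exact hBA b hb.1 z hz
  · refine ⟨-1, Or.inr rfl, P.image (fun z => (z.1, -z.2)), ?_, ?_, ?_,
      Q.image (fun b => (-b).toNat), ?_, ?_, ?_, ?_⟩
    · rw [Finset.card_image_of_injOn]
      intro z _ w _ hzw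
      simp only [Prod.mk.injEq, neg_inj] at hzw
      exact Prod.ext hzw.1 hzw.2
    · intro z hz
      obtain ⟨u, hu, rfl⟩ := Finset.mem_image.1 hz
      obtain ⟨h1, h2, h3⟩ := hH u hu
      exact ⟨h1, h2, by rw [abs_neg]; exact h3⟩
    · intro z hz w hw e
      obtain ⟨u, hu, rfl⟩ := Finset.mem_image.1 hz
      obtain ⟨v, hv, rfl⟩ := Finset.mem_image.1 hw
      have h1 : u = v := hN u hu v hv (by simp only at e; linarith)
      rw [h1]
    · refine Finset.Nonempty.image ?_ _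
      rw [← Finset.card_pos]
      omega
    · intro y hy
      obtain ⟨b, hb, rfl⟩ := Finset.mem_image.1 hy
      rw [hQ, Finset.mem_filter] at hb
      omega
    · rw [Finset.card_image_of_injOn]
      · omega
      · intro b hb b' hb' hbb
        rw [Finset.mem_coe, hQ, Finset.mem_filter] at hb hb'
        simp only at hbb
        omega
    · intro y hy z hz
      obtain ⟨b, hb, rfl⟩ := Finset.mem_image.1 hy
      obtain ⟨u, hu, rfl⟩ := Finset.mem_image.1 hz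
      rw [hQ, Finset.mem_filter] at hb
      have h5 : (((-b).toNat : ℕ) : ℤ) = -b := Int.toNat_of_nonneg (by omega)
      have h7 : (-1 : ℤ) * ((u.1 : ℤ) * (((-b).toNat : ℕ) : ℤ) + -u.2) =
          (u.1 : ℤ) * b + u.2 := by
        rw [h5]
        ring
      rw [h7]
      exact hBA b hb.1 u hu

/-- reduction to translates: after multiplication by the cofactors the forms `g y + t` become
translates of one dilate -/
theorem redA (H m : ℕ) (A : Finset ℤ) (σ : ℤ) (hσ : σ = 1 ∨ σ = -1)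
    (P : Finset (ℕ × ℤ)) (hPm : P.card = m) (hH : Ht H P) (hN : NP P) (Y : Finset ℕ)
    (hY : ∀ y ∈ Y, H < y) (hYA : ∀ y ∈ Y, ∀ z ∈ P, σ * ((z.1 : ℤ) * ((y : ℕ) : ℤ) + z.2) ∈ A) :
    ∃ T : Finset ℕ, T.card = m ∧ (∀ t ∈ T, t ≤ 2 * H ^ (m + 1)) ∧
      ∃ Z : Finset ℕ, Z.card = Y.card ∧ (∀ z ∈ Z, 0 < z) ∧
        ∃ d : ℕ → ℤ, ∀ y ∈ Z, ∀ t ∈ T, ∃ a ∈ A, ((y + t : ℕ) : ℤ) = d t * a := by
  classical
  obtain ⟨g, hg⟩ : ∃ g : ℕ, g = ∏ z ∈ P, z.1 := ⟨_, rfl⟩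
  obtain ⟨co, hco⟩ : ∃ co : ℕ × ℤ → ℕ, ∀ z, co z = ∏ w ∈ P.erase z, w.1 := ⟨_, fun _ => rfl⟩
  have hgco : ∀ z ∈ P, z.1 * co z = g := by
    intro z hz
    rw [hco, hg]
    exact Finset.mul_prod_erase P (fun w : ℕ × ℤ => w.1) hz
  have hg0 : 0 < g := by
    rw [hg]
    exact Finset.prod_pos fun z hz => (hH z hz).1
  have hgH : g ≤ H ^ m := by
    rw [hg, ← hPm]
    exact Finset.prod_le_pow_card _ _ _ fun z hz => (hH z hz).2.1
  have hcog : ∀ z ∈ P, co z ≤ g := by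
    intro z hz
    rw [← hgco z hz]
    exact Nat.le_mul_of_pos_left _ (hH z hz).1
  -- the translates
  have htau : ∀ z ∈ P, |z.2 * (co z : ℤ)| ≤ (g : ℤ) * (H : ℤ) := by
    intro z hz
    rw [abs_mul, Nat.abs_cast]
    have h1 := (hH z hz).2.2
    have h2 : (co z : ℤ) ≤ (g : ℤ) := by exact_mod_cast hcog z hz
    calc |z.2| * (co z : ℤ) ≤ (H : ℤ) * (g : ℤ) :=
          mul_le_mul h1 h2 (by positivity) (by positivity)
      _ = (g : ℤ) * (H : ℤ) := mul_comm _ _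
  have hinj : Set.InjOn (fun z : ℕ × ℤ => (z.2 * (co z : ℤ) + (g : ℤ) * (H : ℤ)).toNat) P := by
    intro z hz w hw e
    have h1 := abs_le.1 (htau z hz)
    have h2 := abs_le.1 (htau w hw)
    simp only at e
    have h3 : z.2 * (co z : ℤ) = w.2 * (co w : ℤ) := by omega
    apply hN z hz w hw
    have h4 : ((z.1 : ℕ) : ℤ) * (co z : ℤ) = (g : ℤ) := by exact_mod_cast hgco z hz
    have h5 : ((w.1 : ℕ) : ℤ) * (co w : ℤ) = (g : ℤ) := by exact_mod_cast hgco w hw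
    have h6 : (g : ℤ) ≠ 0 := by exact_mod_cast hg0.ne'
    apply mul_left_cancel₀ h6
    calc (g : ℤ) * (((z.1 : ℕ) : ℤ) * w.2) = ((z.1 : ℕ) : ℤ) * ((w.1 : ℕ) : ℤ) *
          (w.2 * (co w : ℤ)) := by rw [← h5]; ring
      _ = ((z.1 : ℕ) : ℤ) * ((w.1 : ℕ) : ℤ) * (z.2 * (co z : ℤ)) := by rw [h3]
      _ = (g : ℤ) * (((w.1 : ℕ) : ℤ) * z.2) := by rw [← h4]; ring
  obtain ⟨tau, htaud⟩ : ∃ tau : ℕ × ℤ → ℕ,
      tau = fun z : ℕ × ℤ => (z.2 * (co z : ℤ) + (g : ℤ) * (H : ℤ)).toNat := ⟨_, rfl⟩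
  rw [← htaud] at hinj
  have htauv : ∀ z ∈ P, ((tau z : ℕ) : ℤ) = z.2 * (co z : ℤ) + (g : ℤ) * (H : ℤ) := by
    intro z hz
    have h1 := abs_le.1 (htau z hz)
    rw [htaud]
    exact Int.toNat_of_nonneg (by linarith [h1.1])
  refine ⟨P.image tau, ?_, ?_, Y.image (fun y => g * (y - H)), ?_, ?_, ?_⟩
  · rw [Finset.card_image_of_injOn hinj, hPm]
  · intro t ht
    obtain ⟨z, hz, rfl⟩ := Finset.mem_image.1 ht
    have h1 := (abs_le.1 (htau z hz)).2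
    have h2 := htauv z hz
    have h3 : ((tau z : ℕ) : ℤ) ≤ ((2 * (g * H) : ℕ) : ℤ) := by
      push_cast
      linarith
    have h4 : tau z ≤ 2 * (g * H) := by exact_mod_cast h3
    refine h4.trans ?_
    rw [pow_succ]
    exact Nat.mul_le_mul_left 2 (Nat.mul_le_mul_right H hgH)
  · rw [Finset.card_image_of_injOn]
    intro y hy y' hy' e
    have h1 := hY y hy
    have h2 := hY y' hy'
    have h3 : y - H = y' - H := Nat.eq_of_mul_eq_mul_left hg0 e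
    omega
  · intro y hy
    obtain ⟨u, hu, rfl⟩ := Finset.mem_image.1 hy
    have := hY u hu
    exact Nat.mul_pos hg0 (by omega)
  · -- the representation
    have hdef : ∀ t : ℕ, ∃ e : ℤ, ∀ z ∈ P, tau z = t → e = σ * (co z : ℤ) := by
      intro t
      by_cases ht : ∃ z ∈ P, tau z = t
      · obtain ⟨z, hz, hzt⟩ := ht
        refine ⟨σ * (co z : ℤ), fun w hw hwt => ?_⟩
        have : z = w := hinj hz hw (hzt.trans hwt.symm)
        rw [this]
      · refine ⟨0, fun w hw hwt => absurd ⟨w, hw, hwt⟩ ht⟩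
    choose d hd using hdef
    refine ⟨d, ?_⟩
    intro y hy t ht
    obtain ⟨u, hu, rfl⟩ := Finset.mem_image.1 hy
    obtain ⟨z, hz, rfl⟩ := Finset.mem_image.1 ht
    refine ⟨_, hYA u hu z hz, ?_⟩
    rw [hd (tau z) z hz rfl]
    have h1 := hY u hu
    have h2 : (((g * (u - H) + tau z : ℕ)) : ℤ) =
        (g : ℤ) * ((u : ℤ) - (H : ℤ)) + ((tau z : ℕ) : ℤ) := by
      push_cast [Nat.cast_sub h1.le]
      ring
    rw [h2, htauv z hz]
    have h4 : ((z.1 : ℕ) : ℤ) * (co z : ℤ) = (g : ℤ) := by exact_mod_cast hgco z hz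
    have h5 : σ * σ = 1 := by rcases hσ with rfl | rfl <;> norm_num
    calc (g : ℤ) * ((u : ℤ) - (H : ℤ)) + (z.2 * (co z : ℤ) + (g : ℤ) * (H : ℤ))
        = (g : ℤ) * (u : ℤ) + z.2 * (co z : ℤ) := by ring
      _ = (σ * σ) * (co z : ℤ) * (((z.1 : ℕ) : ℤ) * (u : ℤ) + z.2) := by
          rw [h5, ← h4]; ring
      _ = σ * (co z : ℤ) * (σ * (((z.1 : ℕ) : ℤ) * ((u : ℕ) : ℤ) + z.2)) := by ring

end Pool.Agent.Helper82.MW
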