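import Pool.Agent.Helper82.MW.Final
import Pool.Agent.Helper82.MW.AffPig

set_option autoImplicit false

/-! # Project MW, affine forms of small height -/

namespace Pool.Agent.Helper82.MW

open Finset Pool.Agent.Helper24.MD Pool.Agent.Helper23.BK

/-- comparison with the products of translates, general form -/
theorem kp_le' (k : ℕ) (A : Finset ℤ) (T Y : Finset ℕ) (d : ℕ → ℤ)
    (hd : ∀ y ∈ Y, ∀ t ∈ T, ∃ a ∈ A, ((y + t : ℕ) : ℤ) = d t * a)
    (t : Fin k → ℕ) (ht : ∀ i, t i ∈ T) : (kp_X t Y).card ≤ (pk k A).card := by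
  classical
  have h1 : (kp_X t Y).image (fun n : ℕ => (n : ℤ)) ⊆
      (pk k A).image (fun a => (∏ i, d (t i)) * a) := by
    intro z hz
    obtain ⟨n, hn, rfl⟩ := Finset.mem_image.1 hz
    unfold kp_X at hn
    obtain ⟨f, hf, rfl⟩ := Finset.mem_image.1 hn
    rw [Fintype.mem_piFinset] at hf
    have h2 : ∀ i, ∃ a ∈ A, ((f i + t i : ℕ) : ℤ) = d (t i) * a :=
      fun i => hd _ (hf i) _ (ht i)
    choose a haA ha using h2
    refine Finset.mem_image.2 ⟨∏ i, a i, ?_, ?_⟩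
    · unfold pk
      exact Finset.mem_image.2 ⟨a, Fintype.mem_piFinset.2 haA, rfl⟩
    · rw [← Finset.prod_mul_distrib, Nat.cast_prod]
      exact Finset.prod_congr rfl fun i _ => (ha i).symm
  have h2 : ((kp_X t Y).image (fun n : ℕ => (n : ℤ))).card = (kp_X t Y).card :=
    Finset.card_image_of_injective _ Nat.cast_injective
  rw [← h2]
  exact (Finset.card_le_card h1).trans Finset.card_image_le

/-- logarithmic form -/
theorem affLog (k : ℕ) (ε : ℝ) (hε : 0 < ε) (hε1 : ε ≤ 1) : ∃ m : ℕ, ∃ c : ℝ, 0 < c ∧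
    ∃ K : ℝ, 0 ≤ K ∧ ∀ A B : Finset ℤ, A.Nonempty → B.Nonempty →
      (1 - c) * Real.log (A.card : ℝ) ≤ Real.log (B.card : ℝ) → ∀ H : ℕ, 1 ≤ H →
      Real.log (H : ℝ) ≤ c * Real.log (A.card : ℝ) →
      (∀ b ∈ B, ∃ P : Finset (ℕ × ℤ), m ≤ P.card ∧ Ht H P ∧ NP P ∧
        ∀ z ∈ P, (z.1 : ℤ) * b + z.2 ∈ A) →
      ((k : ℝ) - ε) * Real.log (A.card : ℝ) - K ≤ Real.log ((pk k A).card : ℝ) := by
  obtain ⟨e, he⟩ : ∃ e : ℝ, e = ε / (2 * ((k : ℝ) + 1) ^ 2) := ⟨_, rfl⟩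
  have hk0 : (0 : ℝ) ≤ (k : ℝ) := Nat.cast_nonneg k
  have he0 : 0 < e := by rw [he]; positivity
  have hek : ((k : ℝ) + 1) ^ 2 * e = ε / 2 := by
    rw [he]
    field_simp
  have he1 : e ≤ 1 := by nlinarith [sq_nonneg (k : ℝ)]
  have hek1 : (k : ℝ) * ((k : ℝ) + 1) * e ≤ ε / 2 := by nlinarith
  have hek2 : (k : ℝ) * ((k : ℝ) + 1) * e ≤ (k : ℝ) := by
    have h1 : ((k : ℝ) + 1) * e ≤ 1 := by nlinarith
    nlinarith
  obtain ⟨m, hm, C, hC, hcore⟩ := coreW e he0 he1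
  obtain ⟨q, hq⟩ : ∃ q : ℝ, q = 1 + 2 * (m : ℝ) + 2 * C * ((m : ℝ) + 1) := ⟨_, rfl⟩
  have hq0 : 0 < q := by rw [hq]; positivity
  obtain ⟨c, hc, hc1, hc2⟩ : ∃ c : ℝ, 0 < c ∧ (2 * (m : ℝ) + 2) * c ≤ 1 / 2 ∧
      (k : ℝ) * q * c ≤ ε / 2 := by
    refine ⟨min (1 / (2 * (2 * (m : ℝ) + 2))) (ε / (2 * (((k : ℝ) + 1) * q))),
      by positivity, ?_, ?_⟩
    · have h1 := mul_le_mul_of_nonneg_left (min_le_left (1 / (2 * (2 * (m : ℝ) + 2)))
        (ε / (2 * (((k : ℝ) + 1) * q)))) (by positivity : 0 ≤ 2 * (m : ℝ) + 2)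
      have h2 : (2 * (m : ℝ) + 2) * (1 / (2 * (2 * (m : ℝ) + 2))) = 1 / 2 := by
        field_simp
      linarith
    · have h1 := mul_le_mul_of_nonneg_left (min_le_right (1 / (2 * (2 * (m : ℝ) + 2)))
        (ε / (2 * (((k : ℝ) + 1) * q)))) (by positivity : 0 ≤ (k : ℝ) * q)
      have h2 : (k : ℝ) * q * (ε / (2 * (((k : ℝ) + 1) * q))) =
          ε / 2 * ((k : ℝ) / ((k : ℝ) + 1)) := by
        field_simp
      have h3 : (k : ℝ) / ((k : ℝ) + 1) ≤ 1 := by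
        rw [div_le_one (by positivity)]
        linarith
      rw [h2] at h1
      nlinarith
  have hl2 : 0 ≤ Real.log 2 := Real.log_nonneg (by norm_num)
  refine ⟨m, c, hc, (k : ℝ) * ((8 * (m : ℝ) + 6 + 2 * C) * Real.log 2), by positivity, ?_⟩
  intro A B hA hB hAB H hH hHA hwin
  obtain ⟨L, hL⟩ : ∃ L : ℝ, L = Real.log (A.card : ℝ) := ⟨_, rfl⟩
  obtain ⟨h, hh1⟩ : ∃ h : ℝ, h = Real.log (H : ℝ) := ⟨_, rfl⟩
  have hL0 : 0 ≤ L := hL ▸ Real.log_natCast_nonneg _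
  have hh0 : 0 ≤ h := hh1 ▸ Real.log_natCast_nonneg _
  rw [← hL] at hAB hHA ⊢
  rw [← hh1] at hHA
  have hHr : (1 : ℝ) ≤ (H : ℝ) := by exact_mod_cast hH
  have hH1 : Real.log (2 * (H : ℝ) + 1) ≤ 2 * Real.log 2 + h := by
    have h2 : Real.log (2 * (H : ℝ) + 1) ≤ Real.log (2 ^ 2 * (H : ℝ)) :=
      Real.log_le_log (by positivity) (by linarith)
    rw [Real.log_mul (by norm_num) (by positivity), Real.log_pow] at h2
    push_cast at h2
    rw [hh1]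
    exact h2
  obtain ⟨P, hPm, hPH, hPN, B', hB'B, hB'n, hcard, hBA⟩ := pigA m H A B hB hwin
  have hB'0 : (0 : ℝ) < (B'.card : ℝ) := by exact_mod_cast Finset.card_pos.2 hB'n
  have hB0 : (0 : ℝ) < (B.card : ℝ) := by exact_mod_cast Finset.card_pos.2 hB
  have hlogB : Real.log (B.card : ℝ) ≤ 2 * ((m : ℝ) * (2 * Real.log 2 + h)) +
      Real.log (B'.card : ℝ) := by
    have h1 : (B.card : ℝ) ≤ ((2 * (H : ℝ) + 1) ^ 2) ^ m * (B'.card : ℝ) := by
      exact_mod_cast hcard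
    have h2 := Real.log_le_log hB0 h1
    rw [Real.log_mul (by positivity) hB'0.ne', Real.log_pow, Real.log_pow] at h2
    push_cast at h2
    have h3 : (m : ℝ) * Real.log (2 * (H : ℝ) + 1) ≤ (m : ℝ) * (2 * Real.log 2 + h) :=
      mul_le_mul_of_nonneg_left hH1 (Nat.cast_nonneg m)
    linarith
  have hchA : (m : ℝ) * h ≤ (m : ℝ) * (c * L) :=
    mul_le_mul_of_nonneg_left hHA (Nat.cast_nonneg m)
  have hpk0 : (0 : ℝ) < ((pk k A).card : ℝ) := by
    exact_mod_cast Finset.card_pos.2 (pk_nonempty k hA)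
  by_cases hbig : 2 * (2 * H + 1) ≤ B'.card
  · -- the main case
    obtain ⟨σ, hσ, P', hP'm, hP'H, hP'N, Y, hY, hYH, hYcard, hYA⟩ :=
      signsA H A B' P hPH hPN hBA hbig
    obtain ⟨T, hTm, hTH, Z, hZY, hZp, d, hd⟩ :=
      redA H m A σ hσ P' (hP'm.trans hPm) hP'H hP'N Y hYH hYA
    have hZn : Z.Nonempty := Finset.card_pos.1 (by rw [hZY]; exact Finset.card_pos.2 hY)
    have hH2 : 1 ≤ 2 * H ^ (m + 1) := by
      have h1 : 0 < H ^ (m + 1) := Nat.pow_pos (by omega)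
      omega
    obtain ⟨Y', hY'Z, hY'n, hY'l, hY'c⟩ := hcore T hTm (2 * H ^ (m + 1)) hH2 hTH Z hZn hZp
    have hTn : T.Nonempty := Finset.card_pos.1 (by omega)
    have hlogW : Real.log ((2 * H ^ (m + 1) : ℕ) : ℝ) = Real.log 2 + ((m : ℝ) + 1) * h := by
      push_cast
      rw [Real.log_mul (by norm_num) (by positivity), Real.log_pow, hh1]
      push_cast
      ring
    rw [hlogW] at hY'l hY'c
    obtain ⟨t, ht, htk⟩ := kfoldP e (C * (Real.log 2 + ((m : ℝ) + 1) * h)) he0.le T hTn Y' hY'n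
      (fun y hy => hZp y (hY'Z hy)) hY'c k
    have hkp : Real.log (((kp_X t Y').card : ℕ) : ℝ) ≤ Real.log ((pk k A).card : ℝ) := by
      refine Real.log_le_log ?_ ?_
      · exact_mod_cast Finset.card_pos.2 (kp_nonempty t hY'n)
      · exact_mod_cast kp_le' k A T Y' d (fun y hy => hd y (hY'Z hy)) t ht
    have hYl : Real.log (B'.card : ℝ) ≤ 2 * Real.log 2 + Real.log (Z.card : ℝ) := by
      have hZ0 : (0 : ℝ) < (Z.card : ℝ) := by exact_mod_cast Finset.card_pos.2 hZn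
      have h1 : (B'.card : ℝ) ≤ 2 ^ 2 * (Z.card : ℝ) := by
        have : (B'.card : ℝ) ≤ 4 * (Z.card : ℝ) := by
          rw [hZY]
          exact_mod_cast hYcard
        linarith
      have h2 := Real.log_le_log hB'0 h1
      rw [Real.log_mul (by norm_num) hZ0.ne', Real.log_pow] at h2
      push_cast at h2
      exact h2
    have hCm0 : 0 ≤ C * ((m : ℝ) + 1) := by positivity
    have hCh : C * ((m : ℝ) + 1) * h ≤ C * ((m : ℝ) + 1) * (c * L) :=
      mul_le_mul_of_nonneg_left hHA hCm0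
    -- lower bound for log |Y'|
    have hY'low : L - ((1 + 2 * (m : ℝ) + C * ((m : ℝ) + 1)) * (c * L) +
        (4 * (m : ℝ) + 2 + C) * Real.log 2) ≤ Real.log (Y'.card : ℝ) := by
      have h1 : C * (Real.log 2 + ((m : ℝ) + 1) * h) = C * Real.log 2 +
          C * ((m : ℝ) + 1) * h := by ring
      rw [h1] at hY'l
      have h2 : 2 * ((m : ℝ) * (2 * Real.log 2 + h)) = 4 * (m : ℝ) * Real.log 2 +
          2 * ((m : ℝ) * h) := by ring
      rw [h2] at hlogB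
      have h3 : (1 + 2 * (m : ℝ) + C * ((m : ℝ) + 1)) * (c * L) +
        (4 * (m : ℝ) + 2 + C) * Real.log 2 = c * L + 2 * ((m : ℝ) * (c * L)) +
          C * ((m : ℝ) + 1) * (c * L) + 4 * (m : ℝ) * Real.log 2 + 2 * Real.log 2 +
          C * Real.log 2 := by ring
      rw [h3]
      have h4 : (1 - c) * L = L - c * L := by ring
      rw [h4] at hAB
      linarith
    obtain ⟨a, ha⟩ : ∃ a : ℝ, a = (k : ℝ) - (k : ℝ) * ((k : ℝ) + 1) * e := ⟨_, rfl⟩
    have ha0 : 0 ≤ a := by rw [ha]; linarith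
    have hak : a ≤ (k : ℝ) := by
      have : 0 ≤ (k : ℝ) * ((k : ℝ) + 1) * e := by positivity
      rw [ha]; linarith
    obtain ⟨w, hw⟩ : ∃ w : ℝ, w = (1 + 2 * (m : ℝ) + C * ((m : ℝ) + 1)) * (c * L) +
        (4 * (m : ℝ) + 2 + C) * Real.log 2 := ⟨_, rfl⟩
    have hw0 : 0 ≤ w := by rw [hw]; positivity
    rw [← hw] at hY'low
    have h1 : a * (L - w) ≤ a * Real.log (Y'.card : ℝ) := mul_le_mul_of_nonneg_left hY'low ha0
    have h2 : a * w ≤ (k : ℝ) * w := mul_le_mul_of_nonneg_right hak hw0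
    have h3 : a * L = (k : ℝ) * L - (k : ℝ) * ((k : ℝ) + 1) * e * L := by rw [ha]; ring
    have h4 : (k : ℝ) * ((k : ℝ) + 1) * e * L ≤ ε / 2 * L :=
      mul_le_mul_of_nonneg_right hek1 hL0
    have h5 : (k : ℝ) * q * c * L ≤ ε / 2 * L := mul_le_mul_of_nonneg_right hc2 hL0
    have h6 : a * Real.log (Y'.card : ℝ) - (k : ℝ) * (C * (Real.log 2 + ((m : ℝ) + 1) * h)) ≤
        Real.log ((pk k A).card : ℝ) := by
      have h7 : a * Real.log (Y'.card : ℝ) = (k : ℝ) * Real.log (Y'.card : ℝ) -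
          (k : ℝ) * ((k : ℝ) + 1) * e * Real.log (Y'.card : ℝ) := by rw [ha]; ring
      rw [h7]
      exact htk.trans hkp
    have h7 : (k : ℝ) * (C * ((m : ℝ) + 1) * h) ≤ (k : ℝ) * (C * ((m : ℝ) + 1) * (c * L)) :=
      mul_le_mul_of_nonneg_left hCh hk0
    have h8 : 0 ≤ (k : ℝ) * ((4 * (m : ℝ) + 4) * Real.log 2) := by positivity
    have h9 : a * (L - w) = a * L - a * w := by ring
    have h10 : (k : ℝ) * w + (k : ℝ) * (C * Real.log 2) +
        (k : ℝ) * (C * ((m : ℝ) + 1) * (c * L)) + (k : ℝ) * ((4 * (m : ℝ) + 4) * Real.log 2) =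
        (k : ℝ) * q * c * L + (k : ℝ) * ((8 * (m : ℝ) + 6 + 2 * C) * Real.log 2) := by
      rw [hw, hq]
      ring
    have h11 : (k : ℝ) * (C * (Real.log 2 + ((m : ℝ) + 1) * h)) =
        (k : ℝ) * (C * Real.log 2) + (k : ℝ) * (C * ((m : ℝ) + 1) * h) := by ring
    rw [h11] at h6
    rw [h9, h3] at h1
    linarith
  · -- few elements
    have hsm : (B'.card : ℝ) ≤ 2 * (2 * (H : ℝ) + 1) := by
      have : B'.card ≤ 2 * (2 * H + 1) := by omega
      exact_mod_cast this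
    have h1 := Real.log_le_log hB'0 hsm
    rw [Real.log_mul (by norm_num) (by positivity)] at h1
    have h2 : L ≤ 2 * ((4 * (m : ℝ) + 3) * Real.log 2) := by
      have h3 : (2 * (m : ℝ) + 2) * c * L ≤ 1 / 2 * L := mul_le_mul_of_nonneg_right hc1 hL0
      nlinarith
    have h3 : 0 ≤ Real.log ((pk k A).card : ℝ) := Real.log_natCast_nonneg _
    have h4 : ((k : ℝ) - ε) * L ≤ (k : ℝ) * (2 * ((4 * (m : ℝ) + 3) * Real.log 2)) := by
      have h5 : ((k : ℝ) - ε) * L ≤ (k : ℝ) * L :=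
        mul_le_mul_of_nonneg_right (by linarith) hL0
      exact h5.trans (mul_le_mul_of_nonneg_left h2 hk0)
    have h5 : 0 ≤ (k : ℝ) * (2 * C * Real.log 2) := by positivity
    have h6 : (k : ℝ) * ((8 * (m : ℝ) + 6 + 2 * C) * Real.log 2) =
        (k : ℝ) * (2 * ((4 * (m : ℝ) + 3) * Real.log 2)) + (k : ℝ) * (2 * C * Real.log 2) := by
      ring
    rw [h6]
    linarith

/-- **Affine forms of height `|A| ^ c`**: if for at least `|A| ^ (1 - c)` integers `b` the set `A`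
contains the values at `b` of `m` pairwise non-proportional forms `g b + t`, `1 ≤ g ≤ |A| ^ c`,
`|t| ≤ |A| ^ c`, then `|A ^ k| ≥ c |A| ^ (k - ε)`. -/
theorem affine (k : ℕ) (ε : ℝ) (hε : 0 < ε) : ∃ m : ℕ, ∃ c : ℝ, 0 < c ∧
    ∀ A B : Finset ℤ, A.Nonempty → (A.card : ℝ) ^ (1 - c) ≤ (B.card : ℝ) →
      (∀ b ∈ B, ∃ P : Finset (ℕ × ℤ), m ≤ P.card ∧
        (∀ z ∈ P, 1 ≤ z.1 ∧ (z.1 : ℝ) ≤ (A.card : ℝ) ^ c ∧ |(z.2 : ℝ)| ≤ (A.card : ℝ) ^ c ∧
          (z.1 : ℤ) * b + z.2 ∈ A) ∧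
        ∀ z ∈ P, ∀ w ∈ P, (z.1 : ℤ) * w.2 = (w.1 : ℤ) * z.2 → z = w) →
      c * (A.card : ℝ) ^ ((k : ℝ) - ε) ≤ ((pk k A).card : ℝ) := by
  obtain ⟨m, c1, hc1, K, hK, hmain⟩ :=
    affLog k (min ε 1) (lt_min hε one_pos) (min_le_right _ _)
  refine ⟨m, min c1 (Real.exp (-K)), by positivity, ?_⟩
  intro A B hA hAB hwin
  have hN : (0 : ℝ) < (A.card : ℝ) := by exact_mod_cast Finset.card_pos.2 hA
  have hN1 : (1 : ℝ) ≤ (A.card : ℝ) := by exact_mod_cast Finset.card_pos.2 hA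
  have hL0 : 0 ≤ Real.log (A.card : ℝ) := Real.log_natCast_nonneg _
  have hB0 : (0 : ℝ) < (B.card : ℝ) := lt_of_lt_of_le (Real.rpow_pos_of_pos hN _) hAB
  have hB : B.Nonempty := Finset.card_pos.1 (by exact_mod_cast hB0)
  have hpk0 : (0 : ℝ) < ((pk k A).card : ℝ) := by
    exact_mod_cast Finset.card_pos.2 (pk_nonempty k hA)
  have hAc : (A.card : ℝ) ^ (min c1 (Real.exp (-K))) ≤ (A.card : ℝ) ^ c1 :=
    Real.rpow_le_rpow_of_exponent_le hN1 (min_le_left _ _)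
  have hAc1 : (1 : ℝ) ≤ (A.card : ℝ) ^ c1 := Real.one_le_rpow hN1 hc1.le
  have hH : 1 ≤ ⌊(A.card : ℝ) ^ c1⌋₊ := by
    rw [Nat.one_le_floor_iff]
    exact hAc1
  have h1 := hmain A B hA hB ?_ ⌊(A.card : ℝ) ^ c1⌋₊ hH ?_ ?_
  · apply rpow_le_of_log' hN (by positivity) hpk0
    have h2 : Real.log (min c1 (Real.exp (-K))) ≤ -K := by
      have := Real.log_le_log (by positivity) (min_le_right c1 (Real.exp (-K)))
      rwa [Real.log_exp] at this
    have h3 : ((k : ℝ) - ε) * Real.log (A.card : ℝ) ≤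
        ((k : ℝ) - min ε 1) * Real.log (A.card : ℝ) :=
      mul_le_mul_of_nonneg_right (by linarith [min_le_left ε 1]) hL0
    linarith
  · have h2 : (A.card : ℝ) ^ (1 - c1) ≤ (B.card : ℝ) :=
      (Real.rpow_le_rpow_of_exponent_le hN1
        (by linarith [min_le_left c1 (Real.exp (-K))])).trans hAB
    have h3 := Real.log_le_log (Real.rpow_pos_of_pos hN _) h2
    rwa [Real.log_rpow hN] at h3
  · have h2 : ((⌊(A.card : ℝ) ^ c1⌋₊ : ℕ) : ℝ) ≤ (A.card : ℝ) ^ c1 :=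
      Nat.floor_le (by positivity)
    have h3 := Real.log_le_log (by exact_mod_cast hH) h2
    rwa [Real.log_rpow hN] at h3
  · intro b hb
    obtain ⟨P, hPm, hPz, hPN⟩ := hwin b hb
    refine ⟨P, hPm, ?_, hPN, fun z hz => (hPz z hz).2.2.2⟩
    intro z hz
    obtain ⟨h2, h3, h4, -⟩ := hPz z hz
    refine ⟨h2, Nat.le_floor (h3.trans hAc), ?_⟩
    have h5 : ((z.2.natAbs : ℕ) : ℝ) ≤ (A.card : ℝ) ^ c1 := by
      rw [Nat.cast_natAbs]
      push_cast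
      exact h4.trans hAc
    have h6 := Nat.le_floor h5
    rw [Int.abs_eq_natAbs]
    exact_mod_cast h6

end Pool.Agent.Helper82.MW
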