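import Pool.Agent.Helper23.BK.Shift

set_option autoImplicit false

/-! # Project MW, the cases B and C with a constant `P` on both sides, the case E of a special
prime -/

namespace Pool.Agent.Helper82.MW

open Finset Pool.Agent.Helper24.MD Pool.Agent.Helper23.BK

/-- Case B for an arbitrary partition `φ` of `X` which is seen for all `t ≠ t0`. -/
theorem caseBg {β : Type*} [DecidableEq β] (φ : ℕ → β) (ε L P : ℝ) (hε : 0 < ε)
    (T : Finset ℕ) (hm : 2 / ε ≤ (T.card : ℝ)) (t0 : ℕ)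
    (ht0 : t0 ∈ T) (X : Finset ℕ) (hX : X.Nonempty)
    (hXp : ∀ x ∈ X, 0 < x) (Y Y0 : Finset ℕ) (hsub : Y0 ⊆ Y) (hne : Y0.Nonempty)
    (hsee : ∀ t ∈ T, t ≠ t0 → dt t X Y0 ≤ av X (fun x => dt t (cl φ X x) Y0))
    (hL : Real.log (Y.card : ℝ) - Real.log (Y0.card : ℝ) ≤ L)
    (hB : 2 * L / ε ≤ hh φ X)
    (IH : ∀ X' : Finset ℕ, X'.Nonempty → (∀ x ∈ X', 0 < x) → av T (fun t => dt t X' Y0) ≤
      ε * Real.log (X'.card : ℝ) + ε * Real.log (Y0.card : ℝ) + P) :
    av T (fun t => dt t X Y) ≤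
      ε * Real.log (X.card : ℝ) + ε * Real.log (Y.card : ℝ) + P := by
  have hTn : T.Nonempty := ⟨t0, ht0⟩
  set H := hh φ X with hH
  have hH0 : 0 ≤ H := hh_nonneg _ X hX
  have hY0 : (0 : ℝ) < (Y0.card : ℝ) := by exact_mod_cast Finset.card_pos.2 hne
  have hYY : (Y0.card : ℝ) ≤ (Y.card : ℝ) := by exact_mod_cast Finset.card_le_card hsub
  have hlogY : Real.log (Y0.card : ℝ) ≤ Real.log (Y.card : ℝ) := Real.log_le_log hY0 hYY
  have hTc : (0 : ℝ) < (T.card : ℝ) := by exact_mod_cast Finset.card_pos.2 hTn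
  have hone : ∀ t ∈ T, dt t X Y ≤ L + ((if t = t0 then H else 0) +
      av X (fun x => dt t (cl φ X x) Y0)) := by
    intro t ht
    have h1 := dt_restrict t (Finset.Subset.refl X) hsub hX hne
    by_cases htt : t = t0
    · rw [if_pos htt]
      have h2 := dt_left_any φ t X Y0 hX hne
      linarith
    · rw [if_neg htt]
      have h2 := hsee t ht htt
      linarith
  have hav := av_mono T _ _ hone
  rw [av_add, av_const T hTn, av_add, av_comm] at hav
  have hind : av T (fun t => if t = t0 then H else 0) = H / (T.card : ℝ) := by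
    unfold av
    rw [Finset.sum_ite_eq' T t0 (fun _ => H), if_pos ht0]
  rw [hind] at hav
  have hav2 : av X (fun x => av T (fun t => dt t (cl φ X x) Y0)) ≤
      av X (fun x => ε * Real.log ((cl φ X x).card : ℝ) +
        (ε * Real.log (Y0.card : ℝ) + P)) := by
    refine av_mono X _ _ (fun x hx => ?_)
    have := IH (cl φ X x) ⟨x, mem_cl_self _ _ _ hx⟩
      (fun z hz => hXp z ((Finset.mem_filter.1 hz).1))
    linarith
  rw [av_add, av_const X hX, av_mul, log_card_eq] at hav2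
  have e1 : ε * Real.log (Y0.card : ℝ) ≤ ε * Real.log (Y.card : ℝ) :=
    mul_le_mul_of_nonneg_left hlogY hε.le
  have e2 : L ≤ ε / 2 * H := by
    rw [div_le_iff₀ hε] at hB
    linarith
  have e3 : H / (T.card : ℝ) ≤ ε / 2 * H := by
    rw [div_le_iff₀ hTc]
    rw [div_le_iff₀ hε] at hm
    have : 1 * H ≤ (ε / 2 * (T.card : ℝ)) * H := by
      apply mul_le_mul_of_nonneg_right _ hH0
      linarith
    linarith
  have e4 : ε * (Real.log (X.card : ℝ) - hh φ X) =
      ε * Real.log (X.card : ℝ) - ε * H := by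
    rw [← hH]
    ring
  rw [e4] at hav2
  linarith

/-- Case C with a constant -/
theorem caseCg (ε P : ℝ) (hε : 0 < ε) (T : Finset ℕ) (hTn : T.Nonempty) (p j : ℕ)
    (hp : p.Prime) (X : Finset ℕ) (hX : X.Nonempty) (hXp : ∀ x ∈ X, 0 < x) (Y : Finset ℕ)
    (hY : Y.Nonempty)
    (hC : hh (cx p (p ^ (j + 1))) X ≤ ε * hh (rY (p ^ (j + 1))) Y)
    (IH : ∀ X' : Finset ℕ, X'.Nonempty → (∀ x ∈ X', 0 < x) → ∀ y ∈ Y,
      av T (fun t => dt t X' (cl (rY (p ^ (j + 1))) Y y)) ≤
        ε * Real.log (X'.card : ℝ) +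
          ε * Real.log ((cl (rY (p ^ (j + 1))) Y y).card : ℝ) + P) :
    av T (fun t => dt t X Y) ≤
      ε * Real.log (X.card : ℝ) + ε * Real.log (Y.card : ℝ) + P := by
  set M := p ^ (j + 1) with hM
  have hH0 : 0 ≤ hh (cx p M) X := hh_nonneg _ X hX
  have hav := av_mono T _ _ (fun t (_ : t ∈ T) => dt_right t p j hp X Y hX hXp hY)
  rw [av_add, av_const T hTn, av_comm] at hav
  have hav2 : av X (fun x => av T (fun t => av Y (fun y =>
        dt t (cl (cx p M) X x) (cl (rY M) Y y)))) ≤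
      av X (fun x => ε * Real.log ((cl (cx p M) X x).card : ℝ) +
        (ε * (Real.log (Y.card : ℝ) - hh (rY M) Y) + P)) := by
    refine av_mono X _ _ (fun x hx => ?_)
    rw [av_comm]
    have h1 : av Y (fun y => av T (fun t => dt t (cl (cx p M) X x) (cl (rY M) Y y))) ≤
        av Y (fun y => (ε * Real.log ((cl (cx p M) X x).card : ℝ) + P) +
          ε * Real.log ((cl (rY M) Y y).card : ℝ)) := by
      refine av_mono Y _ _ (fun y hy => ?_)
      have := IH (cl (cx p M) X x) ⟨x, mem_cl_self _ _ _ hx⟩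
        (fun z hz => hXp z ((Finset.mem_filter.1 hz).1)) y hy
      linarith
    rw [av_add, av_const Y hY, av_mul, log_card_eq] at h1
    linarith
  rw [av_add, av_const X hX, av_mul, log_card_eq] at hav2
  have e1 : ε * (Real.log (X.card : ℝ) - hh (cx p M) X) =
      ε * Real.log (X.card : ℝ) - ε * hh (cx p M) X := by ring
  have e2 : ε * (Real.log (Y.card : ℝ) - hh (rY M) Y) =
      ε * Real.log (Y.card : ℝ) - ε * hh (rY M) Y := by ring
  rw [e1, e2] at hav2
  have e3 : 0 ≤ ε * hh (cx p M) X := mul_nonneg hε.le hH0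
  linarith

private lemma CaseG_av_sub {α : Type*} (S : Finset α) (F F' : α → ℝ) :
    av S (fun x => F x - F' x) = av S F - av S F' := by
  unfold av
  rw [Finset.sum_sub_distrib, sub_div]

/-- any partition of `Y`: loss at most its entropy -/
theorem dt_right_any {β : Type*} [DecidableEq β] (ψ : ℕ → β) (t : ℕ) (X Y : Finset ℕ)
    (hX : X.Nonempty) (hY : Y.Nonempty) :
    dt t X Y ≤ hh ψ Y + av Y (fun y => dt t X (cl ψ Y y)) := by
  have h0 : av Y (fun y => dt t X (cl ψ Y y)) =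
      Real.log (X.card : ℝ) + (Real.log (Y.card : ℝ) - hh ψ Y) -
        av Y (fun y => Real.log ((sp t X (cl ψ Y y)).card : ℝ)) := by
    unfold dt
    rw [CaseG_av_sub, av_add, av_const Y hY, log_card_eq]
  rw [h0]
  have h : av Y (fun y => Real.log ((sp t X (cl ψ Y y)).card : ℝ)) ≤
      av Y (fun _ => Real.log ((sp t X Y).card : ℝ)) := by
    refine av_mono Y _ _ (fun y hy => ?_)
    have h1 := dt_restrict t (Finset.Subset.refl X) (X' := X) (Y := Y) (Y' := cl ψ Y y)
      (Finset.filter_subset _ _) hX ⟨y, mem_cl_self ψ Y y hy⟩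
    unfold dt at h1
    linarith
  rw [av_const Y hY] at h
  unfold dt
  linarith

/-- Case E of a special prime: pass to the classes of `y`; with probability at least `κ / 2` the
prime is resolved and the weight drops by `Kp`. -/
theorem caseEs (ε κ C4 P Kp : ℝ) (hε : 0 < ε) (hκ : 0 < κ) (T : Finset ℕ)
    (hTn : T.Nonempty) (M t0 : ℕ) (X : Finset ℕ) (hX : X.Nonempty) (Y : Finset ℕ)
    (hY : Y.Nonempty) (hKp : 0 ≤ Kp) (hC4 : C4 ≤ κ / 2 * Kp)
    (hhi : ((Y.filter (fun y => M ∣ y + t0)).card : ℝ) ≤ (1 - κ / 2) * (Y.card : ℝ))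
    (hY4 : hh (rY M) Y ≤ C4)
    (IH : ∀ y ∈ Y, av T (fun t => dt t X (cl (rY M) Y y)) ≤
        ε * Real.log (X.card : ℝ) + ε * Real.log ((cl (rY M) Y y).card : ℝ) + P -
          (if M ∣ y + t0 then 0 else Kp)) :
    av T (fun t => dt t X Y) ≤
      ε * Real.log (X.card : ℝ) + ε * Real.log (Y.card : ℝ) + P := by
  have hYc : (0 : ℝ) < (Y.card : ℝ) := by exact_mod_cast Finset.card_pos.2 hY
  have hH0 : 0 ≤ hh (rY M) Y := hh_nonneg _ Y hY
  have hav := av_mono T _ _ (fun t (_ : t ∈ T) => dt_right_any (rY M) t X Y hX hY)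
  rw [av_add, av_const T hTn, av_comm] at hav
  have h1 : av Y (fun y => av T (fun t => dt t X (cl (rY M) Y y))) ≤
      av Y (fun y => ((ε * Real.log (X.card : ℝ) + P) +
        ε * Real.log ((cl (rY M) Y y).card : ℝ)) - (if M ∣ y + t0 then 0 else Kp)) := by
    refine av_mono Y _ _ (fun y hy => ?_)
    have := IH y hy
    linarith
  rw [CaseG_av_sub, av_add, av_const Y hY, av_mul, log_card_eq] at h1
  have h2 : κ / 2 * Kp ≤ av Y (fun y => if M ∣ y + t0 then 0 else Kp) := by
    unfold av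
    rw [le_div_iff₀ hYc]
    have h3 : ∑ y ∈ Y, (if M ∣ y + t0 then (0 : ℝ) else Kp) =
        ((Y.filter (fun y => ¬ M ∣ y + t0)).card : ℝ) * Kp := by
      have h5 : ∀ y ∈ Y, (if M ∣ y + t0 then (0 : ℝ) else Kp) =
          if ¬ M ∣ y + t0 then Kp else 0 := by
        intro y _
        by_cases hs : M ∣ y + t0
        · rw [if_pos hs, if_neg (not_not.2 hs)]
        · rw [if_neg hs, if_pos hs]
      rw [Finset.sum_congr rfl h5, ← Finset.sum_filter, Finset.sum_const, nsmul_eq_mul]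
    rw [h3]
    have h4 : ((Y.filter (fun y => M ∣ y + t0)).card : ℝ) +
        ((Y.filter (fun y => ¬ M ∣ y + t0)).card : ℝ) = (Y.card : ℝ) := by
      exact_mod_cast Finset.card_filter_add_card_filter_not _
    have h5 : κ / 2 * (Y.card : ℝ) ≤ ((Y.filter (fun y => ¬ M ∣ y + t0)).card : ℝ) := by
      linarith
    have h6 := mul_le_mul_of_nonneg_right h5 hKp
    linarith
  have h3 : 0 ≤ ε * hh (rY M) Y := mul_nonneg hε.le hH0
  have h4 : ε * (Real.log (Y.card : ℝ) - hh (rY M) Y) =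
      ε * Real.log (Y.card : ℝ) - ε * hh (rY M) Y := by ring
  rw [h4] at h1
  linarith

end Pool.Agent.Helper82.MW
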