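import Pool.Agent.Helper21.BL.Defs
import Pool.Agent.Helper23.BK.Class

set_option autoImplicit false

/-! # Project MW, the largest class modulo the square of the product of the differences -/

namespace Pool.Agent.Helper82.MW

open Finset Pool.Agent.Helper24.MD Pool.Agent.Helper23.BK Pool.Agent.Helper21.BL

/-- product of the differences -/
def Dd (T : Finset ℕ) : ℕ := ∏ z ∈ (T ×ˢ T).filter (fun z => z.1 < z.2), (z.2 - z.1)

theorem Dd_pos (T : Finset ℕ) : 0 < Dd T := by
  unfold Dd
  refine Finset.prod_pos fun z hz => ?_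
  have := (Finset.mem_filter.1 hz).2
  omega

theorem Dd_le (T : Finset ℕ) (H : ℕ) (hH : 1 ≤ H) (hT : ∀ t ∈ T, t ≤ H) :
    Dd T ≤ H ^ (T.card ^ 2) := by
  unfold Dd
  calc ∏ z ∈ (T ×ˢ T).filter (fun z => z.1 < z.2), (z.2 - z.1)
      ≤ ∏ z ∈ (T ×ˢ T).filter (fun z => z.1 < z.2), H := by
        refine Finset.prod_le_prod' fun z hz => ?_
        have h1 := (Finset.mem_product.1 (Finset.mem_filter.1 hz).1).2
        exact (Nat.sub_le _ _).trans (hT _ h1)
    _ = H ^ ((T ×ˢ T).filter (fun z => z.1 < z.2)).card := by rw [Finset.prod_const]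
    _ ≤ H ^ (T.card ^ 2) := by
        refine Nat.pow_le_pow_right hH ?_
        refine (Finset.card_filter_le _ _).trans ?_
        rw [Finset.card_product, sq]

theorem dvd_Dd {T : Finset ℕ} {t t' : ℕ} (ht : t ∈ T) (ht' : t' ∈ T) (h : t < t') :
    (t' - t) ∣ Dd T := by
  unfold Dd
  exact Finset.dvd_prod_of_mem (fun z : ℕ × ℕ => z.2 - z.1) (a := (t, t'))
    (Finset.mem_filter.2 ⟨Finset.mem_product.2 ⟨ht, ht'⟩, h⟩)

theorem dvd_Dd' {T : Finset ℕ} {t t' : ℕ} (ht : t ∈ T) (ht' : t' ∈ T) (h : t ≠ t') :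
    (max t t' - min t t') ∣ Dd T := by
  rcases lt_or_gt_of_ne h with h1 | h1
  · rw [max_eq_right h1.le, min_eq_left h1.le]
    exact dvd_Dd ht ht' h1
  · rw [max_eq_left h1.le, min_eq_right h1.le]
    exact dvd_Dd ht' ht h1

/-- the primes, the exponents and the largest class -/
theorem exists_classW (T Y : Finset ℕ) (hY : Y.Nonempty) :
    ∃ Y' ⊆ Y, Y'.Nonempty ∧ Y.card ≤ (Dd T * Dd T) * Y'.card ∧
      ∀ p : ℕ, p.Prime → Inj T p ∨ Res T Y' p ∨
        (p ∈ (Dd T).primeFactors ∧ Spec T Y' p ((Dd T).factorization p)) := by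
  classical
  obtain ⟨D, hD⟩ : ∃ D : ℕ, D = Dd T := ⟨_, rfl⟩
  have hD0 : 0 < D := hD ▸ Dd_pos T
  have hQ0 : 0 < D * D := Nat.mul_pos hD0 hD0
  rw [← hD]
  obtain ⟨r, hr, hmax⟩ := Finset.exists_max_image (Finset.range (D * D))
    (fun r => (Y.filter fun y => y % (D * D) = r).card) ⟨0, Finset.mem_range.2 hQ0⟩
  have hcard : Y.card ≤ (D * D) * (Y.filter fun y => y % (D * D) = r).card := by
    have h1 : Y.card = ∑ r' ∈ Finset.range (D * D),
        (Y.filter fun y => y % (D * D) = r').card :=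
      Finset.card_eq_sum_card_fiberwise fun y _ => by
        simpa using Nat.mod_lt y hQ0
    rw [h1]
    calc ∑ r' ∈ Finset.range (D * D), (Y.filter fun y => y % (D * D) = r').card
        ≤ ∑ r' ∈ Finset.range (D * D), (Y.filter fun y => y % (D * D) = r).card :=
          Finset.sum_le_sum fun r' hr' => hmax r' hr'
      _ = (D * D) * (Y.filter fun y => y % (D * D) = r).card := by
          rw [Finset.sum_const, Finset.card_range, smul_eq_mul]
  set Y' := Y.filter fun y => y % (D * D) = r with hY'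
  have hne : Y'.Nonempty := by
    rw [← Finset.card_pos]
    have h2 : 0 < Y.card := Finset.card_pos.2 hY
    by_contra hc
    have h3 : Y'.card = 0 := by omega
    rw [h3] at hcard
    omega
  obtain ⟨y0, hy0⟩ := hne
  have hmod : ∀ y ∈ Y', y ≡ y0 [MOD (D * D)] := by
    intro y hy
    have h1 : y % (D * D) = r := (Finset.mem_filter.1 hy).2
    have h2 : y0 % (D * D) = r := (Finset.mem_filter.1 hy0).2
    exact h1.trans h2.symm
  refine ⟨Y', Finset.filter_subset _ _, ⟨y0, hy0⟩, hcard, ?_⟩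
  intro p hp
  by_cases hpD : p ∈ D.primeFactors
  · right
    have hs1 : 1 ≤ D.factorization p := by
      rw [← hp.pow_dvd_iff_le_factorization hD0.ne', pow_one]
      exact Nat.dvd_of_mem_primeFactors hpD
    have hQ : p ^ (D.factorization p + 1) ∣ D * D := by
      have h1 : p ^ D.factorization p ∣ D :=
        (hp.pow_dvd_iff_le_factorization hD0.ne').2 le_rfl
      have h2 : p ^ (D.factorization p + D.factorization p) ∣ D * D := by
        rw [pow_add]
        exact mul_dvd_mul h1 h1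
      exact (pow_dvd_pow p (by omega)).trans h2
    have hndD : ¬ p ^ (D.factorization p + 1) ∣ D := by
      rw [hp.pow_dvd_iff_le_factorization hD0.ne']
      omega
    have hmodp : ∀ y ∈ Y', y ≡ y0 [MOD p ^ (D.factorization p + 1)] :=
      fun y hy => (hmod y hy).of_dvd hQ
    by_cases hex : ∃ t0 ∈ T, p ^ (D.factorization p + 1) ∣ y0 + t0
    · right
      obtain ⟨t0, ht0, hd⟩ := hex
      refine ⟨hpD, t0, ht0, ?_, ?_⟩
      · intro y hy
        exact ((Nat.ModEq.add_right t0 (hmodp y hy)).dvd_iff dvd_rfl).2 hd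
      · intro t ht hne hdv
        exact hndD (hdv.trans (hD ▸ dvd_Dd' ht ht0 hne))
    · left
      push Not at hex
      intro t ht y hy y' hy'
      have h2 : ∀ z ∈ Y', (y0 + t).factorization p = (z + t).factorization p := by
        intro z hz
        refine fact_eq_of_modEq hp ?_ (hex t ht)
        exact Nat.ModEq.add_right t (hmodp z hz).symm
      exact (h2 y hy).symm.trans (h2 y' hy')
  · left
    have key : ∀ t ∈ T, ∀ t' ∈ T, t' < t → ((t : ℕ) : ZMod p) ≠ ((t' : ℕ) : ZMod p) := by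
      intro t ht t' ht' hlt heq
      apply hpD
      rw [Nat.mem_primeFactors]
      refine ⟨hp, ?_, hD0.ne'⟩
      have h1 : t' ≡ t [MOD p] := (ZMod.natCast_eq_natCast_iff t' t p).1 heq.symm
      exact ((Nat.modEq_iff_dvd' hlt.le).1 h1).trans (hD ▸ dvd_Dd ht' ht hlt)
    intro t ht t' ht' heq
    rcases lt_trichotomy t t' with h1 | h1 | h1
    · exact absurd heq.symm (key t' ht' t ht h1)
    · exact h1
    · exact absurd heq (key t ht t' ht' h1)

/-- the sum of the costs -/
theorem sum_cost (D : ℕ) (hD : 0 < D) :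
    ∑ p ∈ D.primeFactors, (1 + ((D.factorization p : ℕ) : ℝ) * Real.log (p : ℝ)) ≤
      3 * Real.log (D : ℝ) := by
  have h1 : Real.log (D : ℝ) =
      ∑ p ∈ D.primeFactors, ((D.factorization p : ℕ) : ℝ) * Real.log (p : ℝ) := by
    rw [Real.log_nat_eq_sum_factorization]
    rfl
  rw [h1, Finset.mul_sum]
  refine Finset.sum_le_sum fun p hp => ?_
  have hpp := Nat.prime_of_mem_primeFactors hp
  have hs1 : 1 ≤ D.factorization p := by
    rw [← hpp.pow_dvd_iff_le_factorization hD.ne', pow_one]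
    exact Nat.dvd_of_mem_primeFactors hp
  have h2 : (1 : ℝ) / 2 ≤ Real.log (p : ℝ) := by
    have h3 : Real.log 2 ≤ Real.log (p : ℝ) :=
      Real.log_le_log (by norm_num) (by exact_mod_cast hpp.two_le)
    have := Real.log_two_gt_d9
    linarith
  have h4 : (1 : ℝ) ≤ ((D.factorization p : ℕ) : ℝ) := by exact_mod_cast hs1
  nlinarith

end Pool.Agent.Helper82.MW
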