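import Pool.Agent.Helper21.BL.PropTs
import Pool.Agent.Helper82.MW.Class

set_option autoImplicit false

/-! # Project MW, the one step inequality for a window of length `H` -/

namespace Pool.Agent.Helper82.MW

open Finset Pool.Agent.Helper24.MD Pool.Agent.Helper23.BK Pool.Agent.Helper21.BL

/-- every set of `m` integers in a window of length `H`: cost `C log H` -/
theorem coreW (ε : ℝ) (hε : 0 < ε) (hε1 : ε ≤ 1) : ∃ m : ℕ, 2 ≤ m ∧ ∃ C : ℝ, 0 ≤ C ∧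
    ∀ T : Finset ℕ, T.card = m → ∀ H : ℕ, 1 ≤ H → (∀ t ∈ T, t ≤ H) →
      ∀ Y : Finset ℕ, Y.Nonempty → (∀ y ∈ Y, 0 < y) →
        ∃ Y' ⊆ Y, Y'.Nonempty ∧
          Real.log (Y.card : ℝ) ≤ Real.log (Y'.card : ℝ) + C * Real.log (H : ℝ) ∧
          ∀ X : Finset ℕ, X.Nonempty → (∀ x ∈ X, 0 < x) →
            av T (fun t => dt t X Y') ≤ ε * Real.log (X.card : ℝ) +
              ε * Real.log (Y'.card : ℝ) + C * Real.log (H : ℝ) := by
  obtain ⟨m, hm, C0, hC0, hmain⟩ := propTs ε hε hε1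
  refine ⟨m, hm, 2 * (m : ℝ) ^ 2 + 3 * C0 * (m : ℝ) ^ 2, by positivity, ?_⟩
  intro T hTm H hH hTH Y hY hYp
  obtain ⟨Y', hsub, hne, hcard, hcond⟩ := exists_classW T Y hY
  have hHl : 0 ≤ Real.log (H : ℝ) := Real.log_natCast_nonneg H
  have hD0 : (0 : ℝ) < (Dd T : ℝ) := by exact_mod_cast Dd_pos T
  have hDl : Real.log (Dd T : ℝ) ≤ (m : ℝ) ^ 2 * Real.log (H : ℝ) := by
    have h1 : ((Dd T : ℕ) : ℝ) ≤ (H : ℝ) ^ (m ^ 2) := by
      have := Dd_le T H hH hTH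
      rw [hTm] at this
      exact_mod_cast this
    have h2 := Real.log_le_log hD0 h1
    rw [Real.log_pow] at h2
    push_cast at h2
    exact h2
  refine ⟨Y', hsub, hne, ?_, ?_⟩
  · have hY0 : (0 : ℝ) < (Y.card : ℝ) := by exact_mod_cast Finset.card_pos.2 hY
    have hY1 : (0 : ℝ) < (Y'.card : ℝ) := by exact_mod_cast Finset.card_pos.2 hne
    have h1 : (Y.card : ℝ) ≤ ((Dd T : ℝ) * (Dd T : ℝ)) * (Y'.card : ℝ) := by
      exact_mod_cast hcard
    have h2 := Real.log_le_log hY0 h1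
    rw [Real.log_mul (by positivity) hY1.ne', Real.log_mul hD0.ne' hD0.ne'] at h2
    have h3 : 0 ≤ 3 * C0 * (m : ℝ) ^ 2 * Real.log (H : ℝ) := by positivity
    have h4 : (2 * (m : ℝ) ^ 2 + 3 * C0 * (m : ℝ) ^ 2) * Real.log (H : ℝ) =
        2 * ((m : ℝ) ^ 2 * Real.log (H : ℝ)) + 3 * C0 * (m : ℝ) ^ 2 * Real.log (H : ℝ) := by ring
    rw [h4]
    linarith
  · intro X hX hXp
    have h1 := hmain T hTm.ge (Dd T).primeFactors (fun p => (Dd T).factorization p) Y' hne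
      (fun y hy => hYp y (hsub hy)) hcond X hX hXp
    have h2 := sum_cost (Dd T) (Dd_pos T)
    have h3 : C0 * ∑ p ∈ (Dd T).primeFactors,
        (1 + (((Dd T).factorization p : ℕ) : ℝ) * Real.log (p : ℝ)) ≤
        C0 * (3 * ((m : ℝ) ^ 2 * Real.log (H : ℝ))) :=
      mul_le_mul_of_nonneg_left (h2.trans (by linarith)) hC0
    have h4 : 0 ≤ 2 * (m : ℝ) ^ 2 * Real.log (H : ℝ) := by positivity
    have h5 : (2 * (m : ℝ) ^ 2 + 3 * C0 * (m : ℝ) ^ 2) * Real.log (H : ℝ) =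
        2 * (m : ℝ) ^ 2 * Real.log (H : ℝ) + C0 * (3 * ((m : ℝ) ^ 2 * Real.log (H : ℝ))) := by
      ring
    rw [h5]
    linarith

end Pool.Agent.Helper82.MW
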