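import Pool.Agent.Helper23.BK.Shift

set_option autoImplicit false

/-!
# Project MW (MP_120218): clusters in windows of length `|A| ^ c`

`sp t X Y = X (Y + t)`, `dt` (its deficit), `cx`, `Rare`, `Inj` are those of
`Helper23/BK/Defs.lean`; `av`, `cl`, `hh`, `rY` those of `Helper24/MD/Defs.lean`.
-/

namespace Pool.Agent.Helper82.MW

open Finset Pool.Agent.Helper24.MD Pool.Agent.Helper23.BK

/-- Outside `W` every prime is good for `T`. For `p ∈ W` either all valuations of the translates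
`y + t` at `p` are constant on `Y`, or `p ^ (s p + 1)` divides `y + τ p` for every `y ∈ Y` and does
not divide `y + t` for `t ≠ τ p` (the special element is `τ p`). Inherited by subsets of `Y`. -/
def Spc (T Y W : Finset ℕ) (s τ : ℕ → ℕ) : Prop :=
  ∀ p : ℕ, p.Prime → (p ∉ W → Inj T p) ∧ (p ∈ W →
    (∀ t ∈ T, ∀ y ∈ Y, ∀ y' ∈ Y, (y + t).factorization p = (y' + t).factorization p) ∨
    ((∀ y ∈ Y, p ^ (s p + 1) ∣ y + τ p) ∧
      ∀ t ∈ T, t ≠ τ p → ∀ y ∈ Y, ¬ p ^ (s p + 1) ∣ y + t))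

theorem Spc.mono {T Y Z W : Finset ℕ} {s τ : ℕ → ℕ} (h : Spc T Y W s τ) (hZ : Z ⊆ Y) :
    Spc T Z W s τ := by
  intro p hp
  refine ⟨(h p hp).1, fun hpW => ?_⟩
  rcases (h p hp).2 hpW with h1 | h1
  · exact Or.inl fun t ht y hy y' hy' => h1 t ht y (hZ hy) y' (hZ hy')
  · exact Or.inr ⟨fun y hy => h1.1 y (hZ hy), fun t ht hne y hy => h1.2 t ht hne y (hZ hy)⟩

/-- `p` is not resolved: the valuation of `y + t` is not constant on `Y` -/
def NR (Y : Finset ℕ) (p t : ℕ) : Prop :=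
  ∃ y ∈ Y, ∃ y' ∈ Y, (y + t).factorization p ≠ (y' + t).factorization p

theorem NR.mono {Y Z : Finset ℕ} {p t : ℕ} (h : NR Z p t) (hZ : Z ⊆ Y) : NR Y p t := by
  obtain ⟨y, hy, y', hy', hne⟩ := h
  exact ⟨y, hZ hy, y', hZ hy', hne⟩

open Classical in
/-- the weight of the unresolved special primes -/
noncomputable def Ph (W : Finset ℕ) (K : ℕ → ℝ) (τ : ℕ → ℕ) (Y : Finset ℕ) : ℝ :=
  ∑ p ∈ W, if NR Y p (τ p) then K p else 0

theorem Ph_mono (W : Finset ℕ) (K : ℕ → ℝ) (hK : ∀ p ∈ W, 0 ≤ K p) (τ : ℕ → ℕ)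
    {Y Z : Finset ℕ} (hZ : Z ⊆ Y) : Ph W K τ Z ≤ Ph W K τ Y := by
  classical
  unfold Ph
  refine Finset.sum_le_sum fun p hp => ?_
  by_cases h : NR Z p (τ p)
  · rw [if_pos h, if_pos (h.mono hZ)]
  · rw [if_neg h]
    split_ifs
    · exact hK p hp
    · exact le_refl 0

theorem Ph_nonneg (W : Finset ℕ) (K : ℕ → ℝ) (hK : ∀ p ∈ W, 0 ≤ K p) (τ : ℕ → ℕ)
    (Y : Finset ℕ) : 0 ≤ Ph W K τ Y := by
  classical
  unfold Ph
  refine Finset.sum_nonneg fun p hp => ?_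
  split_ifs
  · exact hK p hp
  · exact le_refl 0

theorem Ph_le (W : Finset ℕ) (K : ℕ → ℝ) (hK : ∀ p ∈ W, 0 ≤ K p) (τ : ℕ → ℕ)
    (Y : Finset ℕ) : Ph W K τ Y ≤ ∑ p ∈ W, K p := by
  classical
  unfold Ph
  refine Finset.sum_le_sum fun p hp => ?_
  split_ifs
  · exact le_refl _
  · exact hK p hp

/-- a prime which becomes resolved lowers the weight by `K p` -/
theorem Ph_drop (W : Finset ℕ) (K : ℕ → ℝ) (hK : ∀ p ∈ W, 0 ≤ K p) (τ : ℕ → ℕ)
    {Y Z : Finset ℕ} (hZ : Z ⊆ Y) {p : ℕ} (hp : p ∈ W) (h : NR Y p (τ p))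
    (h' : ¬ NR Z p (τ p)) : Ph W K τ Z ≤ Ph W K τ Y - K p := by
  classical
  unfold Ph
  rw [← Finset.add_sum_erase W _ hp, ← Finset.add_sum_erase W _ hp, if_neg h', if_pos h]
  have h1 : ∑ q ∈ W.erase p, (if NR Z q (τ q) then K q else 0) ≤
      ∑ q ∈ W.erase p, (if NR Y q (τ q) then K q else 0) := by
    refine Finset.sum_le_sum fun q hq => ?_
    by_cases hn : NR Z q (τ q)
    · rw [if_pos hn, if_pos (hn.mono hZ)]
    · rw [if_neg hn]
      split_ifs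
      · exact hK q (Finset.mem_of_mem_erase hq)
      · exact le_refl 0
  linarith

end Pool.Agent.Helper82.MW
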