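import Pool.Agent.Helper23.BK.KFold

set_option autoImplicit false

/-! # Project MW, `k`-fold products with an additive constant -/

namespace Pool.Agent.Helper82.MW

open Finset Pool.Agent.Helper24.MD Pool.Agent.Helper23.BK

/-- iteration with a constant `P` -/
theorem kfoldP (ε P : ℝ) (hε : 0 ≤ ε) (T : Finset ℕ) (hT : T.Nonempty) (Y : Finset ℕ)
    (hY : Y.Nonempty) (hYp : ∀ y ∈ Y, 0 < y)
    (h : ∀ X : Finset ℕ, X.Nonempty → (∀ x ∈ X, 0 < x) → av T (fun t => dt t X Y) ≤
      ε * Real.log (X.card : ℝ) + ε * Real.log (Y.card : ℝ) + P) (k : ℕ) :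
    ∃ t : Fin k → ℕ, (∀ i, t i ∈ T) ∧
      (k : ℝ) * Real.log (Y.card : ℝ) - (k : ℝ) * ((k : ℝ) + 1) * ε * Real.log (Y.card : ℝ) -
          (k : ℝ) * P ≤ Real.log (((kp_X t Y).card : ℕ) : ℝ) := by
  have hL : 0 ≤ Real.log (Y.card : ℝ) :=
    Real.log_nonneg (by exact_mod_cast Finset.card_pos.2 hY)
  induction k with
  | zero =>
    refine ⟨Fin.elim0, fun i => i.elim0, ?_⟩
    have h1 : (1 : ℝ) ≤ ((kp_X (Fin.elim0 : Fin 0 → ℕ) Y).card : ℝ) := by
      exact_mod_cast Finset.card_pos.2 (kp_nonempty _ hY)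
    have h2 := Real.log_nonneg h1
    simpa using h2
  | succ k ih =>
    obtain ⟨t, ht, htk⟩ := ih
    obtain ⟨t0, ht0, ht0k⟩ :=
      exists_le_av T hT _ _ (h (kp_X t Y) (kp_nonempty t hY) (kp_pos t hYp))
    refine ⟨Fin.cons t0 t, ?_, ?_⟩
    · intro i
      refine Fin.cases ?_ (fun j => ?_) i
      · simpa using ht0
      · simpa using ht j
    · have hne : (sp t0 (kp_X t Y) Y).Nonempty := by
        unfold sp
        exact (kp_nonempty t hY).image₂ hY
      have h1 : Real.log ((sp t0 (kp_X t Y) Y).card : ℝ) ≤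
          Real.log (((kp_X (Fin.cons t0 t : Fin (k + 1) → ℕ) Y).card : ℕ) : ℝ) := by
        refine Real.log_le_log (by exact_mod_cast Finset.card_pos.2 hne) ?_
        exact_mod_cast Finset.card_le_card (kp_sub t t0 Y)
      have h2 := kp_log t hY
      have h3 : ε * Real.log ((kp_X t Y).card : ℝ) ≤ ε * ((k : ℝ) * Real.log (Y.card : ℝ)) :=
        mul_le_mul_of_nonneg_left h2 hε
      have h4 : 0 ≤ ((k : ℝ) + 1) * (ε * Real.log (Y.card : ℝ)) :=
        mul_nonneg (by positivity) (mul_nonneg hε hL)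
      unfold dt at ht0k
      refine le_trans ?_ h1
      push_cast
      nlinarith [htk, ht0k, h3, h4]

end Pool.Agent.Helper82.MW
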