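import Mathlib

set_option autoImplicit false

/-! # Project MW, pigeonhole over the patterns, signs -/

namespace Pool.Agent.Helper82.MW

open Finset

/-- one pattern `T` for many `b` -/
theorem pig (m H : ℕ) (A B : Finset ℤ) (hBn : B.Nonempty)
    (hB : ∀ b ∈ B, m ≤ (A.filter (fun a => b ≤ a ∧ a ≤ b + (H : ℤ))).card) :
    ∃ T : Finset ℕ, T.card = m ∧ (∀ t ∈ T, t ≤ H) ∧ ∃ B' ⊆ B, B'.Nonempty ∧
      B.card ≤ (H + 1) ^ m * B'.card ∧ ∀ b ∈ B', ∀ t ∈ T, b + ((t : ℕ) : ℤ) ∈ A := by
  classical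
  have h1 : ∀ b ∈ B, ∃ T : Finset ℕ, T ∈ (Finset.range (H + 1)).powersetCard m ∧
      ∀ t ∈ T, b + ((t : ℕ) : ℤ) ∈ A := by
    intro b hb
    obtain ⟨S, hS, hSm⟩ := Finset.exists_subset_card_eq (hB b hb)
    have hSp : ∀ a ∈ S, a ∈ A ∧ b ≤ a ∧ a ≤ b + (H : ℤ) := fun a ha => by
      have := Finset.mem_filter.1 (hS ha)
      exact ⟨this.1, this.2⟩
    refine ⟨S.image (fun a => (a - b).toNat), ?_, ?_⟩
    · rw [Finset.mem_powersetCard]
      constructor
      · intro t ht
        obtain ⟨a, ha, rfl⟩ := Finset.mem_image.1 ht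
        obtain ⟨-, h2, h3⟩ := hSp a ha
        rw [Finset.mem_range]
        omega
      · rw [Finset.card_image_of_injOn, hSm]
        intro a ha a' ha' haa
        obtain ⟨-, h2, h3⟩ := hSp a ha
        obtain ⟨-, h4, h5⟩ := hSp a' ha'
        simp only at haa
        omega
    · intro t ht
      obtain ⟨a, ha, rfl⟩ := Finset.mem_image.1 ht
      obtain ⟨h0, h2, h3⟩ := hSp a ha
      have h4 : b + (((a - b).toNat : ℕ) : ℤ) = a := by
        rw [Int.toNat_of_nonneg (by omega)]
        ring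
      rw [h4]
      exact h0
  choose! F hF hFA using h1
  have hPne : ((Finset.range (H + 1)).powersetCard m).Nonempty := by
    obtain ⟨b, hb⟩ := hBn
    exact ⟨F b, hF b hb⟩
  obtain ⟨T, hT, hmax⟩ := Finset.exists_max_image ((Finset.range (H + 1)).powersetCard m)
    (fun T => (B.filter fun b => F b = T).card) hPne
  have hcard : B.card ≤ (H + 1) ^ m * (B.filter fun b => F b = T).card := by
    have h1 : B.card = ∑ T' ∈ (Finset.range (H + 1)).powersetCard m,
        (B.filter fun b => F b = T').card :=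
      Finset.card_eq_sum_card_fiberwise fun b hb => hF b hb
    rw [h1]
    calc ∑ T' ∈ (Finset.range (H + 1)).powersetCard m, (B.filter fun b => F b = T').card
        ≤ ∑ T' ∈ (Finset.range (H + 1)).powersetCard m, (B.filter fun b => F b = T).card :=
          Finset.sum_le_sum fun T' hT' => hmax T' hT'
      _ = ((Finset.range (H + 1)).powersetCard m).card * (B.filter fun b => F b = T).card := by
          rw [Finset.sum_const, smul_eq_mul]
      _ ≤ (H + 1) ^ m * (B.filter fun b => F b = T).card := by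
          refine Nat.mul_le_mul_right _ ?_
          rw [Finset.card_powersetCard, Finset.card_range]
          exact Nat.choose_le_pow _ _
  rw [Finset.mem_powersetCard] at hT
  refine ⟨T, hT.2, ?_, B.filter (fun b => F b = T), Finset.filter_subset _ _, ?_, hcard, ?_⟩
  · intro t ht
    have := Finset.mem_range.1 (hT.1 ht)
    omega
  · rw [← Finset.card_pos]
    have h2 : 0 < B.card := Finset.card_pos.2 hBn
    by_contra hc
    have h3 : (B.filter fun b => F b = T).card = 0 := by omega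
    rw [h3] at hcard
    omega
  · intro b hb t ht
    obtain ⟨hb1, hb2⟩ := Finset.mem_filter.1 hb
    exact hFA b hb1 t (hb2 ▸ ht)

/-- signs: pass to positive integers -/
theorem signs (H : ℕ) (A B : Finset ℤ) (T : Finset ℕ) (hT : ∀ t ∈ T, t ≤ H)
    (hBA : ∀ b ∈ B, ∀ t ∈ T, b + ((t : ℕ) : ℤ) ∈ A) (hbig : 2 * (H + 1) ≤ B.card) :
    ∃ σ : ℤ, (σ = 1 ∨ σ = -1) ∧ ∃ T' : Finset ℕ, T'.card = T.card ∧ (∀ t ∈ T', t ≤ H) ∧
      ∃ Y : Finset ℕ, Y.Nonempty ∧ (∀ y ∈ Y, 0 < y) ∧ B.card ≤ 4 * Y.card ∧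
        ∀ y ∈ Y, ∀ t ∈ T', σ * (((y : ℕ) : ℤ) + ((t : ℕ) : ℤ)) ∈ A := by
  classical
  obtain ⟨P, hP⟩ : ∃ P : Finset ℤ, P = B.filter (fun b => 0 < b) := ⟨_, rfl⟩
  obtain ⟨Q, hQ⟩ : ∃ Q : Finset ℤ, Q = B.filter (fun b => b < -(H : ℤ)) := ⟨_, rfl⟩
  have hsum : B.card ≤ P.card + Q.card + (H + 1) := by
    have h1 : B ⊆ (P ∪ Q) ∪ Finset.Icc (-(H : ℤ)) 0 := by
      intro b hb
      rw [Finset.mem_union, Finset.mem_union, hP, hQ, Finset.mem_filter, Finset.mem_filter,
        Finset.mem_Icc]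
      by_cases h2 : 0 < b
      · exact Or.inl (Or.inl ⟨hb, h2⟩)
      · by_cases h3 : b < -(H : ℤ)
        · exact Or.inl (Or.inr ⟨hb, h3⟩)
        · exact Or.inr ⟨not_lt.1 h3, not_lt.1 h2⟩
    have h2 := (Finset.card_le_card h1).trans (Finset.card_union_le _ _)
    have h3 := Finset.card_union_le P Q
    have h4 : (Finset.Icc (-(H : ℤ)) 0).card = H + 1 := by
      rw [Int.card_Icc]
      omega
    omega
  have hpos : 0 < B.card := by omega
  rcases le_total Q.card P.card with hle | hle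
  · refine ⟨1, Or.inl rfl, T, rfl, hT, P.image (fun b => b.toNat), ?_, ?_, ?_, ?_⟩
    · refine Finset.Nonempty.image ?_ _
      rw [← Finset.card_pos]
      omega
    · intro y hy
      obtain ⟨b, hb, rfl⟩ := Finset.mem_image.1 hy
      rw [hP, Finset.mem_filter] at hb
      omega
    · rw [Finset.card_image_of_injOn]
      · omega
      · intro b hb b' hb' hbb
        rw [Finset.mem_coe, hP, Finset.mem_filter] at hb hb'
        simp only at hbb
        omega
    · intro y hy t ht
      obtain ⟨b, hb, rfl⟩ := Finset.mem_image.1 hy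
      rw [hP, Finset.mem_filter] at hb
      have h5 : ((b.toNat : ℕ) : ℤ) = b := Int.toNat_of_nonneg hb.2.le
      rw [h5, one_mul]
      exact hBA b hb.1 t ht
  · refine ⟨-1, Or.inr rfl, T.image (fun t => H - t), ?_, ?_,
      Q.image (fun b => (-b - (H : ℤ)).toNat), ?_, ?_, ?_, ?_⟩
    · rw [Finset.card_image_of_injOn]
      intro t ht t' ht' htt
      have h1 := hT t ht
      have h2 := hT t' ht'
      simp only at htt
      omega
    · intro t ht
      obtain ⟨u, hu, rfl⟩ := Finset.mem_image.1 ht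
      exact Nat.sub_le _ _
    · refine Finset.Nonempty.image ?_ _
      rw [← Finset.card_pos]
      omega
    · intro y hy
      obtain ⟨b, hb, rfl⟩ := Finset.mem_image.1 hy
      rw [hQ, Finset.mem_filter] at hb
      omega
    · rw [Finset.card_image_of_injOn]
      · omega
      · intro b hb b' hb' hbb
        rw [Finset.mem_coe, hQ, Finset.mem_filter] at hb hb'
        simp only at hbb
        omega
    · intro y hy t ht
      obtain ⟨b, hb, rfl⟩ := Finset.mem_image.1 hy
      obtain ⟨u, hu, rfl⟩ := Finset.mem_image.1 ht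
      rw [hQ, Finset.mem_filter] at hb
      have h5 : (((-b - (H : ℤ)).toNat : ℕ) : ℤ) = -b - (H : ℤ) :=
        Int.toNat_of_nonneg (by omega)
      have h6 : ((H - u : ℕ) : ℤ) = (H : ℤ) - (u : ℤ) := by
        have := hT u hu
        omega
      have h7 : (-1 : ℤ) * ((((-b - (H : ℤ)).toNat : ℕ) : ℤ) + ((H - u : ℕ) : ℤ)) =
          b + ((u : ℕ) : ℤ) := by
        rw [h5, h6]
        ring
      rw [h7]
      exact hBA b hb.1 u hu

end Pool.Agent.Helper82.MW
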