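import Pool.Agent.Helper82.MW.Core
import Pool.Agent.Helper82.MW.KFold
import Pool.Agent.Helper82.MW.Pig

set_option autoImplicit false

/-! # Project MW, the theorem for finite sets of integers -/

namespace Pool.Agent.Helper82.MW

open Finset Pool.Agent.Helper24.MD Pool.Agent.Helper23.BK

/-- the `k`-fold product set -/
def pk (k : ℕ) (A : Finset ℤ) : Finset ℤ :=
  (Fintype.piFinset (fun _ : Fin k => A)).image (fun f : Fin k → ℤ => ∏ i, f i)

theorem pk_nonempty (k : ℕ) {A : Finset ℤ} (hA : A.Nonempty) : (pk k A).Nonempty := by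
  unfold pk
  exact (Fintype.piFinset_nonempty.2 fun _ => hA).image _

/-- comparison with the products of translates of a set of positive integers -/
theorem kp_le (k : ℕ) (σ : ℤ) (hσ : σ = 1 ∨ σ = -1) (A : Finset ℤ) (T Y : Finset ℕ)
    (hYT : ∀ y ∈ Y, ∀ t ∈ T, σ * (((y : ℕ) : ℤ) + ((t : ℕ) : ℤ)) ∈ A)
    (t : Fin k → ℕ) (ht : ∀ i, t i ∈ T) : (kp_X t Y).card ≤ (pk k A).card := by
  have hσ0 : σ ≠ 0 := by rcases hσ with rfl | rfl <;> norm_num
  refine Finset.card_le_card_of_injOn (fun z : ℕ => σ ^ k * (z : ℤ)) ?_ ?_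
  · intro z hz
    rw [Finset.mem_coe] at hz ⊢
    unfold kp_X at hz
    obtain ⟨f, hf, rfl⟩ := Finset.mem_image.1 hz
    rw [Fintype.mem_piFinset] at hf
    unfold pk
    refine Finset.mem_image.2 ⟨fun i => σ * (((f i : ℕ) : ℤ) + ((t i : ℕ) : ℤ)), ?_, ?_⟩
    · rw [Fintype.mem_piFinset]
      exact fun i => hYT _ (hf i) _ (ht i)
    · rw [Finset.prod_mul_distrib, Finset.prod_const, Finset.card_univ, Fintype.card_fin]
      push_cast
      rfl
  · intro a _ b _ hab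
    have h1 : σ ^ k * (a : ℤ) = σ ^ k * (b : ℤ) := hab
    have h2 := mul_left_cancel₀ (pow_ne_zero k hσ0) h1
    exact_mod_cast h2

/-- logarithmic form -/
theorem windowLog (k : ℕ) (ε : ℝ) (hε : 0 < ε) (hε1 : ε ≤ 1) : ∃ m : ℕ, ∃ c : ℝ, 0 < c ∧
    ∃ K : ℝ, 0 ≤ K ∧ ∀ A B : Finset ℤ, A.Nonempty → B.Nonempty →
      (1 - c) * Real.log (A.card : ℝ) ≤ Real.log (B.card : ℝ) → ∀ H : ℕ, 1 ≤ H →
      Real.log (H : ℝ) ≤ c * Real.log (A.card : ℝ) →
      (∀ b ∈ B, m ≤ (A.filter (fun a => b ≤ a ∧ a ≤ b + (H : ℤ))).card) →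
      ((k : ℝ) - ε) * Real.log (A.card : ℝ) - K ≤ Real.log ((pk k A).card : ℝ) := by
  obtain ⟨e, he⟩ : ∃ e : ℝ, e = ε / (2 * ((k : ℝ) + 1) ^ 2) := ⟨_, rfl⟩
  have hk0 : (0 : ℝ) ≤ (k : ℝ) := Nat.cast_nonneg k
  have he0 : 0 < e := by rw [he]; positivity
  have hek : ((k : ℝ) + 1) ^ 2 * e = ε / 2 := by
    rw [he]
    field_simp
  have he1 : e ≤ 1 := by nlinarith [sq_nonneg (k : ℝ)]
  have hek1 : (k : ℝ) * ((k : ℝ) + 1) * e ≤ ε / 2 := by nlinarith
  have hek2 : (k : ℝ) * ((k : ℝ) + 1) * e ≤ (k : ℝ) := by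
    have h1 : ((k : ℝ) + 1) * e ≤ 1 := by nlinarith
    nlinarith
  obtain ⟨m, hm, C, hC, hcore⟩ := coreW e he0 he1
  obtain ⟨c, hc, hc1, hc2⟩ : ∃ c : ℝ, 0 < c ∧ ((m : ℝ) + 2) * c ≤ 1 / 2 ∧
      (k : ℝ) * (1 + (m : ℝ) + 2 * C) * c ≤ ε / 2 := by
    refine ⟨min (1 / (2 * ((m : ℝ) + 2))) (ε / (2 * (((k : ℝ) + 1) * (1 + (m : ℝ) + 2 * C)))),
      by positivity, ?_, ?_⟩
    · have h1 := mul_le_mul_of_nonneg_left (min_le_left (1 / (2 * ((m : ℝ) + 2)))
        (ε / (2 * (((k : ℝ) + 1) * (1 + (m : ℝ) + 2 * C))))) (by positivity : 0 ≤ (m : ℝ) + 2)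
      have h2 : ((m : ℝ) + 2) * (1 / (2 * ((m : ℝ) + 2))) = 1 / 2 := by
        field_simp
      linarith
    · have h1 := mul_le_mul_of_nonneg_left (min_le_right (1 / (2 * ((m : ℝ) + 2)))
        (ε / (2 * (((k : ℝ) + 1) * (1 + (m : ℝ) + 2 * C)))))
        (by positivity : 0 ≤ (k : ℝ) * (1 + (m : ℝ) + 2 * C))
      have h2 : (k : ℝ) * (1 + (m : ℝ) + 2 * C) *
          (ε / (2 * (((k : ℝ) + 1) * (1 + (m : ℝ) + 2 * C)))) =
          ε / 2 * ((k : ℝ) / ((k : ℝ) + 1)) := by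
        field_simp
      have h3 : (k : ℝ) / ((k : ℝ) + 1) ≤ 1 := by
        rw [div_le_one (by positivity)]
        linarith
      rw [h2] at h1
      nlinarith
  have hl2 : 0 ≤ Real.log 2 := Real.log_nonneg (by norm_num)
  refine ⟨m, c, hc, 2 * (k : ℝ) * ((m : ℝ) + 2) * Real.log 2, by positivity, ?_⟩
  intro A B hA hB hAB H hH hHA hwin
  obtain ⟨L, hL⟩ : ∃ L : ℝ, L = Real.log (A.card : ℝ) := ⟨_, rfl⟩
  obtain ⟨h, hh1⟩ : ∃ h : ℝ, h = Real.log (H : ℝ) := ⟨_, rfl⟩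
  have hL0 : 0 ≤ L := hL ▸ Real.log_natCast_nonneg _
  have hh0 : 0 ≤ h := hh1 ▸ Real.log_natCast_nonneg _
  rw [← hL] at hAB hHA ⊢
  rw [← hh1] at hHA
  have hH1 : Real.log ((H : ℝ) + 1) ≤ Real.log 2 + h := by
    rw [hh1, ← Real.log_mul (by norm_num) (by positivity)]
    refine Real.log_le_log (by positivity) ?_
    have : (1 : ℝ) ≤ (H : ℝ) := by exact_mod_cast hH
    linarith
  obtain ⟨T, hTm, hTH, B', hB'B, hB'n, hcard, hBA⟩ := pig m H A B hB hwin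
  have hB'0 : (0 : ℝ) < (B'.card : ℝ) := by exact_mod_cast Finset.card_pos.2 hB'n
  have hB0 : (0 : ℝ) < (B.card : ℝ) := by exact_mod_cast Finset.card_pos.2 hB
  have hmul : ∀ x : ℝ, x ≤ Real.log 2 + h → (m : ℝ) * x ≤ (m : ℝ) * (Real.log 2 + h) :=
    fun x hx => mul_le_mul_of_nonneg_left hx (Nat.cast_nonneg m)
  have hlogB : Real.log (B.card : ℝ) ≤ (m : ℝ) * (Real.log 2 + h) + Real.log (B'.card : ℝ) := by
    have h1 : (B.card : ℝ) ≤ ((H : ℝ) + 1) ^ m * (B'.card : ℝ) := by exact_mod_cast hcard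
    have h2 := Real.log_le_log hB0 h1
    rw [Real.log_mul (by positivity) hB'0.ne', Real.log_pow] at h2
    have := hmul _ hH1
    linarith
  have hchA : (m : ℝ) * h ≤ (m : ℝ) * (c * L) :=
    mul_le_mul_of_nonneg_left hHA (Nat.cast_nonneg m)
  have hpk0 : (0 : ℝ) < ((pk k A).card : ℝ) := by
    exact_mod_cast Finset.card_pos.2 (pk_nonempty k hA)
  by_cases hbig : 2 * (H + 1) ≤ B'.card
  · -- the main case
    obtain ⟨σ, hσ, T', hT'm, hT'H, Y, hY, hYp, hYcard, hYA⟩ := signs H A B' T hTH hBA hbig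
    obtain ⟨Y', hY'Y, hY'n, hY'l, hY'c⟩ := hcore T' (hT'm.trans hTm) H hH hT'H Y hY hYp
    have hT'n : T'.Nonempty := Finset.card_pos.1 (by omega)
    rw [← hh1] at hY'l hY'c
    obtain ⟨t, ht, htk⟩ := kfoldP e (C * h) he0.le T' hT'n Y' hY'n
      (fun y hy => hYp y (hY'Y hy)) hY'c k
    have hkp : Real.log (((kp_X t Y').card : ℕ) : ℝ) ≤ Real.log ((pk k A).card : ℝ) := by
      refine Real.log_le_log ?_ ?_
      · exact_mod_cast Finset.card_pos.2 (kp_nonempty t hY'n)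
      · exact_mod_cast kp_le k σ hσ A T' Y' (fun y hy => hYA y (hY'Y hy)) t ht
    have hYl : Real.log (B'.card : ℝ) ≤ 2 * Real.log 2 + Real.log (Y.card : ℝ) := by
      have hY0 : (0 : ℝ) < (Y.card : ℝ) := by exact_mod_cast Finset.card_pos.2 hY
      have h1 : (B'.card : ℝ) ≤ 2 ^ 2 * (Y.card : ℝ) := by
        have : (B'.card : ℝ) ≤ 4 * (Y.card : ℝ) := by exact_mod_cast hYcard
        linarith
      have h2 := Real.log_le_log hB'0 h1
      rw [Real.log_mul (by norm_num) hY0.ne', Real.log_pow] at h2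
      push_cast at h2
      exact h2
    have hCh : C * h ≤ C * (c * L) := mul_le_mul_of_nonneg_left hHA hC
    -- lower bound for log |Y'|
    have hY'low : L - ((1 + (m : ℝ) + C) * (c * L) + ((m : ℝ) + 2) * Real.log 2) ≤
        Real.log (Y'.card : ℝ) := by
      nlinarith
    obtain ⟨a, ha⟩ : ∃ a : ℝ, a = (k : ℝ) - (k : ℝ) * ((k : ℝ) + 1) * e := ⟨_, rfl⟩
    have ha0 : 0 ≤ a := by rw [ha]; linarith
    have hak : a ≤ (k : ℝ) := by
      have : 0 ≤ (k : ℝ) * ((k : ℝ) + 1) * e := by positivity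
      rw [ha]; linarith
    have h1 : a * (L - ((1 + (m : ℝ) + C) * (c * L) + ((m : ℝ) + 2) * Real.log 2)) ≤
        a * Real.log (Y'.card : ℝ) := mul_le_mul_of_nonneg_left hY'low ha0
    have h2 : a * ((1 + (m : ℝ) + C) * (c * L) + ((m : ℝ) + 2) * Real.log 2) ≤
        (k : ℝ) * ((1 + (m : ℝ) + C) * (c * L) + ((m : ℝ) + 2) * Real.log 2) :=
      mul_le_mul_of_nonneg_right hak (by positivity)
    have h3 : a * L = (k : ℝ) * L - (k : ℝ) * ((k : ℝ) + 1) * e * L := by rw [ha]; ring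
    have h4 : (k : ℝ) * ((k : ℝ) + 1) * e * L ≤ ε / 2 * L :=
      mul_le_mul_of_nonneg_right hek1 hL0
    have h5 : (k : ℝ) * (1 + (m : ℝ) + 2 * C) * c * L ≤ ε / 2 * L :=
      mul_le_mul_of_nonneg_right hc2 hL0
    have h6 : a * Real.log (Y'.card : ℝ) - (k : ℝ) * (C * h) ≤ Real.log ((pk k A).card : ℝ) := by
      have h7 : a * Real.log (Y'.card : ℝ) = (k : ℝ) * Real.log (Y'.card : ℝ) -
          (k : ℝ) * ((k : ℝ) + 1) * e * Real.log (Y'.card : ℝ) := by rw [ha]; ring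
      rw [h7]
      exact htk.trans hkp
    have h7 : (k : ℝ) * (C * h) ≤ (k : ℝ) * (C * (c * L)) :=
      mul_le_mul_of_nonneg_left hCh hk0
    have h8 : 0 ≤ (k : ℝ) * ((m : ℝ) + 2) * Real.log 2 := by positivity
    have h9 : a * (L - ((1 + (m : ℝ) + C) * (c * L) + ((m : ℝ) + 2) * Real.log 2)) =
        a * L - a * ((1 + (m : ℝ) + C) * (c * L) + ((m : ℝ) + 2) * Real.log 2) := by ring
    have h10 : (k : ℝ) * ((1 + (m : ℝ) + C) * (c * L) + ((m : ℝ) + 2) * Real.log 2) +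
        (k : ℝ) * (C * (c * L)) = (k : ℝ) * (1 + (m : ℝ) + 2 * C) * c * L +
          (k : ℝ) * ((m : ℝ) + 2) * Real.log 2 := by ring
    linarith
  · -- few elements
    have hsm : (B'.card : ℝ) ≤ 2 * ((H : ℝ) + 1) := by
      have : B'.card ≤ 2 * (H + 1) := by omega
      exact_mod_cast this
    have h1 := Real.log_le_log hB'0 hsm
    rw [Real.log_mul (by norm_num) (by positivity)] at h1
    have h2 : L ≤ 2 * (((m : ℝ) + 2) * Real.log 2) := by
      have h3 : ((m : ℝ) + 2) * c * L ≤ 1 / 2 * L := mul_le_mul_of_nonneg_right hc1 hL0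
      nlinarith
    have h3 : 0 ≤ Real.log ((pk k A).card : ℝ) := Real.log_natCast_nonneg _
    have h4 : ((k : ℝ) - ε) * L ≤ (k : ℝ) * (2 * (((m : ℝ) + 2) * Real.log 2)) := by
      have h5 : ((k : ℝ) - ε) * L ≤ (k : ℝ) * L :=
        mul_le_mul_of_nonneg_right (by linarith) hL0
      exact h5.trans (mul_le_mul_of_nonneg_left h2 hk0)
    linarith

/-- comparison of powers from logarithms -/
theorem rpow_le_of_log' {N c S b : ℝ} (hN : 0 < N) (hc : 0 < c) (hS : 0 < S)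
    (h : Real.log c + b * Real.log N ≤ Real.log S) : c * N ^ b ≤ S := by
  rw [← Real.log_le_log_iff (by positivity) hS, Real.log_mul hc.ne'
    (Real.rpow_pos_of_pos hN _).ne', Real.log_rpow hN]
  exact h

/-- **Clusters in windows of length `|A| ^ c`** -/
theorem window (k : ℕ) (ε : ℝ) (hε : 0 < ε) : ∃ m : ℕ, ∃ c : ℝ, 0 < c ∧
    ∀ A B : Finset ℤ, A.Nonempty → (A.card : ℝ) ^ (1 - c) ≤ (B.card : ℝ) →
      (∀ b ∈ B, m ≤ (A.filter
        (fun a => b ≤ a ∧ (a : ℝ) ≤ (b : ℝ) + (A.card : ℝ) ^ c)).card) →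
      c * (A.card : ℝ) ^ ((k : ℝ) - ε) ≤ ((pk k A).card : ℝ) := by
  obtain ⟨m, c1, hc1, K, hK, hmain⟩ :=
    windowLog k (min ε 1) (lt_min hε one_pos) (min_le_right _ _)
  refine ⟨m, min c1 (Real.exp (-K)), by positivity, ?_⟩
  intro A B hA hAB hwin
  have hN : (0 : ℝ) < (A.card : ℝ) := by exact_mod_cast Finset.card_pos.2 hA
  have hN1 : (1 : ℝ) ≤ (A.card : ℝ) := by exact_mod_cast Finset.card_pos.2 hA
  have hL0 : 0 ≤ Real.log (A.card : ℝ) := Real.log_natCast_nonneg _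
  have hB0 : (0 : ℝ) < (B.card : ℝ) := lt_of_lt_of_le (Real.rpow_pos_of_pos hN _) hAB
  have hB : B.Nonempty := Finset.card_pos.1 (by exact_mod_cast hB0)
  have hpk0 : (0 : ℝ) < ((pk k A).card : ℝ) := by
    exact_mod_cast Finset.card_pos.2 (pk_nonempty k hA)
  have hAc : (A.card : ℝ) ^ (min c1 (Real.exp (-K))) ≤ (A.card : ℝ) ^ c1 :=
    Real.rpow_le_rpow_of_exponent_le hN1 (min_le_left _ _)
  have hAc1 : (1 : ℝ) ≤ (A.card : ℝ) ^ c1 := Real.one_le_rpow hN1 hc1.le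
  have hH : 1 ≤ ⌊(A.card : ℝ) ^ c1⌋₊ := by
    rw [Nat.one_le_floor_iff]
    exact hAc1
  have h1 := hmain A B hA hB ?_ ⌊(A.card : ℝ) ^ c1⌋₊ hH ?_ ?_
  · apply rpow_le_of_log' hN (by positivity) hpk0
    have h2 : Real.log (min c1 (Real.exp (-K))) ≤ -K := by
      have := Real.log_le_log (by positivity) (min_le_right c1 (Real.exp (-K)))
      rwa [Real.log_exp] at this
    have h3 : ((k : ℝ) - ε) * Real.log (A.card : ℝ) ≤
        ((k : ℝ) - min ε 1) * Real.log (A.card : ℝ) :=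
      mul_le_mul_of_nonneg_right (by linarith [min_le_left ε 1]) hL0
    linarith
  · have h2 : (A.card : ℝ) ^ (1 - c1) ≤ (B.card : ℝ) :=
      (Real.rpow_le_rpow_of_exponent_le hN1
        (by linarith [min_le_left c1 (Real.exp (-K))])).trans hAB
    have h3 := Real.log_le_log (Real.rpow_pos_of_pos hN _) h2
    rwa [Real.log_rpow hN] at h3
  · have h2 : ((⌊(A.card : ℝ) ^ c1⌋₊ : ℕ) : ℝ) ≤ (A.card : ℝ) ^ c1 :=
      Nat.floor_le (by positivity)
    have h3 := Real.log_le_log (by exact_mod_cast hH) h2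
    rwa [Real.log_rpow hN] at h3
  · intro b hb
    refine (hwin b hb).trans (Finset.card_le_card ?_)
    intro a ha
    rw [Finset.mem_filter] at ha ⊢
    refine ⟨ha.1, ha.2.1, ?_⟩
    have h2 : ((a - b : ℤ) : ℝ) ≤ (A.card : ℝ) ^ c1 := by
      push_cast
      linarith [ha.2.2]
    have h3 : a - b = (((a - b).toNat : ℕ) : ℤ) := (Int.toNat_of_nonneg (by linarith [ha.2.1])).symm
    rw [h3] at h2
    have h4 : (((a - b).toNat : ℕ) : ℝ) ≤ (A.card : ℝ) ^ c1 := by exact_mod_cast h2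
    have h5 := Nat.le_floor h4
    omega

end Pool.Agent.Helper82.MW
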